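import Pool.Agent.GH.GaussP
import Pool.Agent.GH.D3.Base3

/-! Row C3-6: three circles theorem for polynomials. -/

noncomputable section

namespace GH.Cen3

open GH.D3 Polynomial

theorem tc_norm_three : ‖(3 : C3)‖ = 1 / 3 := by
  have h1 : (3 : C3) = algebraMap ℚ_[3] C3 ((3 : ℕ) : ℚ_[3]) := by
    rw [map_natCast]
    norm_num
  rw [h1, norm_algebraMap', Padic.norm_p]
  norm_num

theorem tc_norm_int (z : ℤ) : ‖(z : C3)‖ = ‖(z : ℚ_[3])‖ := by
  have h1 : (z : C3) = algebraMap ℚ_[3] C3 (z : ℚ_[3]) := by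
    rw [map_intCast]
  rw [h1, norm_algebraMap']

theorem tc_norm_int_le (z : ℤ) : ‖(z : C3)‖ ≤ 1 := by
  rw [tc_norm_int]
  exact Padic.norm_int_le_one z

theorem tc_dvd {z : ℤ} (h : ‖(z : C3)‖ < 1) : (3 : ℤ) ∣ z := by
  rw [tc_norm_int] at h
  exact_mod_cast (Padic.norm_intCast_lt_one_iff (p := 3)).1 h

theorem tc_sum_lt {ι : Type*} (s : Finset ι) (g : ι → C3) {C : ℝ} (hC : 0 < C)
    (h : ∀ i ∈ s, ‖g i‖ < C) : ‖∑ i ∈ s, g i‖ < C := by
  classical
  induction s using Finset.induction_on with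
  | empty => simpa using hC
  | insert a s ha ih =>
    rw [Finset.sum_insert ha]
    refine (IsUltrametricDist.norm_add_le_max _ _).trans_lt (max_lt ?_ ?_)
    · exact h a (Finset.mem_insert_self _ _)
    · exact ih fun i hi => h i (Finset.mem_insert_of_mem hi)

/-- A unit in general position with respect to `0, 1, 2` is in general position with respect to
all integers. -/
theorem tc_gen {x : C3} (g0 : ‖x - 0‖ = 1) (g1 : ‖x - 1‖ = 1) (g2 : ‖x - 2‖ = 1) (k : ℤ) :
    ‖x - k‖ = 1 := by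
  have key : ∀ t : ℤ, ‖x - t‖ = 1 → (3 : ℤ) ∣ k - t → ‖x - k‖ = 1 := by
    intro t ht hd
    obtain ⟨j, hj⟩ := hd
    have h1 : x - (k : C3) = (x - t) - ((3 : C3) * j) := by
      have : (k : C3) = t + 3 * j := by
        have h2 : k = t + 3 * j := by linarith
        rw [h2]
        push_cast
        ring
      rw [this]
      ring
    have h3 : ‖(3 : C3) * j‖ < ‖x - t‖ := by
      rw [norm_mul, tc_norm_three, ht]
      have := tc_norm_int_le j
      linarith
    rw [h1, norm_sub_of_lt h3, ht]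
  have h3 : k % 3 = 0 ∨ k % 3 = 1 ∨ k % 3 = 2 := by omega
  rcases h3 with h3 | h3 | h3
  · exact key 0 (by simpa using g0) (by omega)
  · exact key 1 (by simpa using g1) (by omega)
  · exact key 2 (by simpa using g2) (by omega)

/-- A bound at the generic points of `‖x - a‖ = 1/3` and a bound on the unit disc give a bound in
between. -/
theorem three_circle (P : Polynomial C3) {a m : ℕ} {A : ℝ} (hA : 0 < A)
    (h0 : ∀ x : C3, ‖x - a‖ = 1 / 3 → (∀ b : ℕ, ‖x - b‖ < 1 → ‖x - b‖ = 1 / 3) →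
      ‖P.eval x‖ < A * (1 / 3) ^ m)
    (h1 : ∀ x : C3, ‖x‖ ≤ 1 → ‖P.eval x‖ < A) {x : C3} (hx : 1 / 3 ≤ ‖x - a‖)
    (hx1 : ‖x - a‖ ≤ 1) : ‖P.eval x‖ < A * ‖x - a‖ ^ m := by
  classical
  have ha : ‖(a : C3)‖ ≤ 1 := by
    have := tc_norm_int_le (a : ℤ)
    simpa using this
  set Q : Polynomial C3 := P.comp (X + C (a : C3)) with hQ
  have hQe : ∀ y : C3, Q.eval y = P.eval (y + a) := by
    intro y
    rw [hQ, eval_comp, eval_add, eval_X, eval_C]
  -- bound of the coefficients on the unit disc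
  have hc1 : ∀ k, ‖Q.coeff k‖ < A := by
    obtain ⟨y, hy, -, h⟩ := exists_coeff_le Q ∅ (by simp)
    intro k
    refine (h k).trans_lt ?_
    rw [hQe]
    apply h1
    exact (IsUltrametricDist.norm_add_le_max _ _).trans (max_le hy.le ha)
  -- bound of the coefficients on the small circle
  have hc2 : ∀ k, ‖Q.coeff k‖ * (1 / 3) ^ k < A * (1 / 3) ^ m := by
    obtain ⟨y, hy, hy', h⟩ := exists_coeff_le (Q.comp (C (3 : C3) * X)) {0, 1, 2} (by
      intro t ht
      simp only [Finset.mem_insert, Finset.mem_singleton] at ht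
      rcases ht with rfl | rfl | rfl
      · simp
      · simp
      · have := tc_norm_int_le 2
        simpa using this)
    have hev : (Q.comp (C (3 : C3) * X)).eval y = P.eval (3 * y + a) := by
      rw [eval_comp, eval_mul, eval_C, eval_X, hQe]
    intro k
    have hk : ‖(Q.comp (C (3 : C3) * X)).coeff k‖ = ‖Q.coeff k‖ * (1 / 3) ^ k := by
      rw [comp_C_mul_X_coeff, norm_mul, norm_pow, tc_norm_three]
    rw [← hk]
    refine (h k).trans_lt ?_
    rw [hev]
    apply h0
    · rw [add_sub_cancel_right, norm_mul, tc_norm_three, hy, mul_one]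
    · intro b hb
      have h3y : ‖(3 : C3) * y‖ = 1 / 3 := by rw [norm_mul, tc_norm_three, hy, mul_one]
      have hab : ‖(((b : ℤ) - (a : ℤ) : ℤ) : C3)‖ < 1 := by
        have e : (((b : ℤ) - (a : ℤ) : ℤ) : C3) = 3 * y - (3 * y + a - b) := by
          push_cast
          ring
        rw [e]
        refine (norm_sub_le_max' _ _).trans_lt (max_lt ?_ hb)
        rw [h3y]
        norm_num
      obtain ⟨j, hj⟩ := tc_dvd hab
      have e : (3 : C3) * y + a - b = 3 * (y - j) := by
        have h2 : ((b : ℤ) : C3) - ((a : ℤ) : C3) = 3 * j := by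
          have := congrArg (fun z : ℤ => (z : C3)) hj
          push_cast at this
          simpa using this
        push_cast at h2
        linear_combination -h2
      rw [e, norm_mul, tc_norm_three, tc_gen (hy' 0 (by simp)) (hy' 1 (by simp)) (hy' 2 (by simp)) j,
        mul_one]
  -- the sum
  set r : ℝ := ‖x - a‖ with hr
  have hr0 : 0 < r := by linarith
  have hsum : P.eval x = ∑ k ∈ Finset.range (Q.natDegree + 1), Q.coeff k * (x - a) ^ k := by
    rw [← eval_eq_sum_range, hQe, sub_add_cancel]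
  rw [hsum]
  apply tc_sum_lt _ _ (by positivity)
  intro k _
  rw [norm_mul, norm_pow, ← hr]
  rcases le_total m k with hmk | hkm
  · obtain ⟨d, rfl⟩ := Nat.exists_eq_add_of_le hmk
    have h2 : r ^ d ≤ 1 := pow_le_one₀ hr0.le hx1
    have h3 : ‖Q.coeff (m + d)‖ * r ^ d < A :=
      (mul_le_of_le_one_right (norm_nonneg _) h2).trans_lt (hc1 _)
    have h4 : ‖Q.coeff (m + d)‖ * r ^ (m + d) = ‖Q.coeff (m + d)‖ * r ^ d * r ^ m := by
      rw [pow_add]; ring
    rw [h4]
    exact mul_lt_mul_of_pos_right h3 (pow_pos hr0 m)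
  · have h3r : 1 ≤ 3 * r := by linarith
    have h2 : (3 * r) ^ k ≤ (3 * r) ^ m := pow_le_pow_right₀ h3r hkm
    have h4 : ‖Q.coeff k‖ * r ^ k = ‖Q.coeff k‖ * (1 / 3) ^ k * (3 * r) ^ k := by
      rw [mul_assoc, ← mul_pow]
      congr 2
      ring
    have h5 : A * r ^ m = A * (1 / 3) ^ m * (3 * r) ^ m := by
      rw [mul_assoc, ← mul_pow]
      congr 2
      ring
    rw [h4, h5]
    have h6 : 0 < (3 * r) ^ k := by positivity
    calc ‖Q.coeff k‖ * (1 / 3) ^ k * (3 * r) ^ k < A * (1 / 3) ^ m * (3 * r) ^ k :=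
          mul_lt_mul_of_pos_right (hc2 k) h6
      _ ≤ A * (1 / 3) ^ m * (3 * r) ^ m := mul_le_mul_of_nonneg_left h2 (by positivity)

end GH.Cen3
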