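import Pool.Agent.GH.D3.Param3
import Pool.Agent.GH.GhostMult3
import Pool.Agent.GH.MatU.Defs

/-! Row C3-3: norms of the ghost coefficients, `p = 3`, `x` in the central disc. -/

noncomputable section

namespace GH.Cen3

open GH.D3 GH.MatU

/-- The ghost multiplicity is `TT` (up to the support). -/
theorem mult3_eq_TT (n m : ℕ) : mult 3 n (2 * m) = TT 3 n (2 * m) := by
  have h2 : (3 : ℕ) = 2 ∨ Even (2 * m) := Or.inr (even_two_mul m)
  unfold TT tt
  rw [if_pos h2, gw_mult_eq, gw_dimOne]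
  split_ifs <;> omega

theorem c33_cong (k : ℕ) : ‖(k : C3) - ((k % 3 : ℕ) : C3)‖ ≤ 1 / 3 := by
  have h1 : (k : C3) - ((k % 3 : ℕ) : C3) = 3 * ((k / 3 : ℕ) : C3) := by
    have h2 : ((3 * (k / 3) + k % 3 : ℕ) : C3) = (k : C3) := by rw [Nat.div_add_mod]
    rw [← h2]
    push_cast
    ring
  rw [h1, norm_mul, d3pm_norm_three]
  exact mul_le_of_le_one_right (by norm_num) (IsUltrametricDist.norm_natCast_le_one C3 _)

theorem c33_ne {a b : ℕ} (ha : a ≤ 2) (hb : b ≤ 2) (h : a ≠ b) : ‖(a : C3) - (b : C3)‖ = 1 := by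
  have h1 : ‖(1 : C3)‖ = 1 := norm_one
  have h2 : ‖(2 : C3)‖ = 1 := d3pm_norm_two
  have h3 : ∀ c : C3, (c = 1 ∨ c = -1 ∨ c = 2 ∨ c = -2) → ‖c‖ = 1 := by
    rintro c (h | h | h | h) <;> rw [h]
    · exact h1
    · rw [norm_neg, h1]
    · exact h2
    · rw [norm_neg, h2]
  apply h3
  interval_cases a <;> interval_cases b <;> first
    | exact absurd rfl h
    | (refine Or.inl ?_; push_cast; ring1)
    | (refine Or.inr (Or.inl ?_); push_cast; ring1)
    | (refine Or.inr (Or.inr (Or.inl ?_)); push_cast; ring1)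
    | (refine Or.inr (Or.inr (Or.inr ?_)); push_cast; ring1)

theorem c33_add {x y : C3} (h : ‖y‖ < ‖x‖) : ‖x + y‖ = ‖x‖ := by
  rw [IsUltrametricDist.norm_add_eq_max_of_norm_ne_norm h.ne', max_eq_left h.le]

/-- in another residue disc -/
theorem c33_off {a : ℕ} (ha : a ≤ 2) {x : C3} (hx : ‖x - a‖ < 1) (k : ℕ) (hk : k % 3 ≠ a) :
    ‖x - k‖ = 1 := by
  have hb : k % 3 ≤ 2 := by omega
  have h1 := c33_ne ha hb (Ne.symm hk)
  have h2 := c33_cong k
  have h3 : ‖(a : C3) - k‖ = 1 := by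
    have e : (a : C3) - k = ((a : C3) - ((k % 3 : ℕ) : C3)) + -((k : C3) - ((k % 3 : ℕ) : C3)) := by
      ring
    rw [e, c33_add, h1]
    rw [norm_neg, h1]
    linarith
  have e : x - k = ((a : C3) - k) + (x - a) := by ring
  rw [e, c33_add, h3]
  rw [h3]
  exact hx

theorem c33_prod (x : C3) (hx : ‖x‖ ≤ 1) (n : ℕ) :
    ‖ghost 3 (wx3 x) n‖ = (3 : ℝ)⁻¹ ^ (n * (n + 1)) *
      ∏ m ∈ Finset.range (6 * n + 2), ‖x - ((2 * m : ℕ) : C3)‖ ^ mult 3 n (2 * m) := by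
  rw [ghost3_eq_prod, norm_prod]
  have h1 : ∀ m ∈ Finset.range (6 * n + 2),
      ‖(wx3 x - (7 ^ (2 * m) - 1)) ^ mult 3 n (2 * m)‖ =
        (3 : ℝ)⁻¹ ^ mult 3 n (2 * m) * ‖x - ((2 * m : ℕ) : C3)‖ ^ mult 3 n (2 * m) := by
    intro m _
    rw [norm_pow, ← wx3_natCast, norm_wx3_sub hx (IsUltrametricDist.norm_natCast_le_one C3 _),
      ← mul_pow]
    congr 1
    ring
  rw [Finset.prod_congr rfl h1, Finset.prod_mul_distrib, Finset.prod_pow_eq_pow_sum, sum_mult3]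

theorem c33_reindex (n : ℕ) (g : ℕ → ℝ) (h : ∀ k, ¬ Even k → g k = 1) :
    ∏ k ∈ Finset.range (12 * n + 3), g k = ∏ m ∈ Finset.range (6 * n + 2), g (2 * m) := by
  classical
  have h1 : ∏ m ∈ Finset.range (6 * n + 2), g (2 * m) =
      ∏ k ∈ (Finset.range (6 * n + 2)).image (fun m => 2 * m), g k := by
    rw [Finset.prod_image]
    intro a _ b _ hab
    have : 2 * a = 2 * b := hab
    omega
  rw [h1]
  symm
  refine Finset.prod_subset ?_ ?_
  · intro k hk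
    obtain ⟨m, hm, rfl⟩ := Finset.mem_image.mp hk
    rw [Finset.mem_range] at hm ⊢
    omega
  · intro k hk hk'
    refine h k fun he => hk' ?_
    obtain ⟨c, hc⟩ := he
    rw [Finset.mem_range] at hk
    exact Finset.mem_image.mpr ⟨c, Finset.mem_range.mpr (by omega), by omega⟩

theorem norm_ghost3_cl {a : ℕ} (ha : a ≤ 2) {x : C3} (hx : ‖x - a‖ < 1) (n : ℕ) :
    ‖ghost 3 (wx3 x) n‖ = (3 : ℝ)⁻¹ ^ (n * (n + 1)) *
      ∏ m ∈ Finset.range (Zb 3 n), ‖x - m‖ ^ Ta 3 a n m := by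
  have hx1 : ‖x‖ ≤ 1 := by
    have e : x = (x - a) + a := by ring
    rw [e]
    exact (IsUltrametricDist.norm_add_le_max _ _).trans
      (max_le hx.le (IsUltrametricDist.norm_natCast_le_one C3 a))
  rw [c33_prod x hx1 n]
  congr 1
  have hZ : Zb 3 n = 12 * n + 3 := by
    unfold Zb
    rw [if_neg (by norm_num)]
  rw [hZ, c33_reindex n (fun k => ‖x - k‖ ^ Ta 3 a n k)]
  · refine Finset.prod_congr rfl fun m _ => ?_
    unfold Ta
    split_ifs with h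
    · rw [mult3_eq_TT]
    · rw [c33_off ha hx (2 * m) h, one_pow, pow_zero]
  · intro k hk
    have h0 : Ta 3 a n k = 0 := by
      unfold Ta TT
      rw [if_neg (c := (3 : ℕ) = 2 ∨ Even k) (by rintro (h | h) <;> [norm_num at h; exact hk h])]
      split_ifs <;> rfl
    rw [h0, pow_zero]

theorem norm_ghost3_gen {x : C3} (hx : ‖x‖ ≤ 1) (h : ∀ a : ℕ, a ≤ 2 → ‖x - a‖ = 1) (n : ℕ) :
    ‖ghost 3 (wx3 x) n‖ = (3 : ℝ)⁻¹ ^ (n * (n + 1)) := by
  rw [c33_prod x hx n, Finset.prod_eq_one, mul_one]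
  intro m _
  have hb : (2 * m) % 3 ≤ 2 := by omega
  have h1 := h _ hb
  have h2 := c33_cong (2 * m)
  have e : x - ((2 * m : ℕ) : C3) = (x - (((2 * m) % 3 : ℕ) : C3)) +
      -(((2 * m : ℕ) : C3) - (((2 * m) % 3 : ℕ) : C3)) := by ring
  rw [e, c33_add, h1, one_pow]
  rw [norm_neg, h1]
  linarith

end GH.Cen3
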