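import Pool.Agent.GH.Cen3.Regions
import Pool.Agent.GH.D3.Main3
import Pool.Agent.GH.CombU.P23

/-!
# The central disc, `p = 3`: conclusion
-/

open Filter Topology

noncomputable section

namespace GH.Cen3

open GH.MatU GH.D3

theorem even_T (n : ℕ) : n * (n + 1) = 2 * (n * (n + 1) / 2) :=
  (Nat.two_mul_div_two_of_even (Nat.even_mul_succ_self n)).symm

theorem root_pow (n : ℕ) : (1 / 3 : ℝ) ^ (n * (n + 1)) = qq ^ (4 * (n * (n + 1) / 2)) := by
  rw [third_pow, even_T n, ← mul_assoc]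
  congr 2
  omega

/-- the minors which are not leading are small on the unit disc -/
theorem norm_minor_lt {a : ℕ} (ha : a ≤ 2) {x : C3} (hx : ‖x‖ ≤ 1) {n N : ℕ} {b : Fin n → ℕ}
    (hb : StrictMono b) (h : ∃ i, N ≤ b i) (s : ℕ) (hN : n + s ≤ N) :
    ‖(Matrix.of fun i j : Fin n => M3 a x (b i + 1) (b j + 1)).det‖ <
      (1 / 3 : ℝ) ^ (n * (n + 1)) * qq ^ s := by
  refine (norm_minor_M3 ha hx b).trans_lt ?_
  rw [root_pow, ← pow_add]
  have h1 := sum_mono hb h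
  exact pow_lt_pow_right_of_lt_one₀ qq_pos qq_lt_one (by omega)

theorem not_lead {n : ℕ} {S : Finset ℕ} (hS : S.card = n) (hne : S ≠ Finset.range n) :
    ∃ i, n ≤ S.orderEmbOfFin hS i := by
  by_contra hc
  push Not at hc
  apply hne
  refine Finset.eq_of_subset_of_card_le (fun x hx => ?_) (by rw [hS, Finset.card_range])
  rw [Finset.mem_range]
  obtain ⟨i, hi⟩ := (Finset.range_orderEmbOfFin S hS).symm ▸ (show x ∈ (S : Set ℕ) from hx)
  rw [← hi]
  exact hc i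

/-! ### Region 3: generic points -/

theorem region_gen {x : C3} (hx : ‖x‖ ≤ 1) (h : ∀ b : ℕ, b ≤ 2 → ‖x - b‖ = 1) (n : ℕ) :
    ‖fred (M3 0 x) n‖ = (1 / 3 : ℝ) ^ (n * (n + 1)) := by
  have h1 : ‖(Matrix.of fun i j : Fin n => M3 0 x (i + 1) (j + 1)).det‖ =
      (1 / 3 : ℝ) ^ (n * (n + 1)) := by
    rw [lead_M3 (by norm_num) hx, norm_lead_gen hx h]
  rw [← h1]
  refine norm_fred_eq (cpt_M3 (by norm_num) hx) n n (by rw [h1]; positivity) ?_ ?_
  · intro b hb hbn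
    have h2 := norm_minor_lt (a := 0) (by norm_num) hx hb hbn 0 le_rfl
    rwa [pow_zero, mul_one, ← h1] at h2
  · rw [Finset.sum_eq_zero, norm_zero, h1]
    · positivity
    · intro S hS
      rw [Finset.mem_erase, Finset.mem_powersetCard] at hS
      exact absurd (Finset.eq_of_subset_of_card_le hS.2.1 (by
        rw [hS.2.2, Finset.card_range])) hS.1

/-! ### Region 2: `1/3 < ‖x - a‖ < 1` -/

theorem exists_poly (a : ℕ) (I : Finset (Finset ℕ)) : ∃ P : Polynomial C3, ∀ x : C3,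
    P.eval x = ∑ S ∈ I, pmin (sh (M3 a x)) S := by
  have h := fun i j => Mat3_isPoly a i j
  choose Q hQ using h
  obtain ⟨PM, hPM⟩ : ∃ PM : ℕ → ℕ → Polynomial C3, PM = fun i j =>
    Polynomial.C ((27 ^ (i + 1))⁻¹) * Q (i + 1) (j + 1) * Polynomial.C (27 ^ (j + 1)) := ⟨_, rfl⟩
  refine ⟨∑ S ∈ I, pmin PM S, fun x => ?_⟩
  rw [Polynomial.eval_finsetSum]
  refine Finset.sum_congr rfl fun S _ => ?_
  unfold pmin
  rw [← Polynomial.coe_evalRingHom, RingHom.map_det]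
  congr 1
  ext i j
  rw [RingHom.mapMatrix_apply, Matrix.map_apply, Matrix.of_apply, Matrix.of_apply, hPM,
    Polynomial.coe_evalRingHom, Polynomial.eval_mul, Polynomial.eval_mul, Polynomial.eval_C,
    Polynomial.eval_C, ← hQ]
  rfl

theorem strict_generic {a : ℕ} (ha : a ≤ 2) {h : ℕ → ℕ → ℕ → ℤ}
    (hC : Pot.CombA 3 a (BB 3) (Zb 3) (Ta 3 a) (ss 3) (tt 3) h) {x : C3}
    (hx : ‖x - a‖ = 1 / 3) (hg : ∀ b : ℕ, ‖x - b‖ < 1 → ‖x - b‖ = 1 / 3) {n : ℕ} {b : Fin n → ℕ}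
    (hbn : ∃ i, n ≤ b i) :
    ‖(Matrix.of fun i j : Fin n => M3 a x (b i + 1) (b j + 1)).det‖ <
      (1 / 3 : ℝ) ^ (n * (n + 1)) * (1 / 3 : ℝ) ^ S3 a n := by
  have hx1 : ‖x - a‖ < 1 := by rw [hx]; norm_num
  have hx0 : ‖x‖ ≤ 1 := norm_le_one_of_sub hx1.le
  have hM := matA_NN hp3 (by omega : a < 3)
  have hm : ∀ m : ℕ, m % 3 = a → ‖x - m‖ = 1 / 3 := by
    intro m hm
    apply hg
    have h1 : x - m = (x - a) + -((m : C3) - a) := by ring
    rw [h1]
    refine (IsUltrametricDist.norm_add_le_max _ _).trans_lt (max_lt hx1 ?_)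
    rw [norm_neg]
    exact (norm_natCast_mod hm).trans_lt (by norm_num)
  have hl : ∀ k, ‖(Pot.lead (NN 3 a) k).eval₂ iota3 x‖ =
      (1 / 3 : ℝ) ^ (k * (k + 1) + S3 a k) := fun k => by
    rw [norm_lead_r ha hx1 hm, pow_add]
  obtain ⟨W, -, -, h3, h4⟩ := exists_row ha hx0
  obtain ⟨R, r, hR, hr, e1, e2⟩ := exists_line (v := fun k => k * (k + 1) + S3 a k)
    (d := fun k => 2 * (k + 1) + (2 * k + 2 + a) / 3)
    (fun k => by
      show (k + 1) * (k + 1 + 1) + S3 a (k + 1) = _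
      rw [S3_succ ha]
      ring) (strictMono_nat_of_lt_succ fun k => by
        show 2 * (k + 1) + (2 * k + 2 + a) / 3 < 2 * (k + 1 + 1) + (2 * (k + 1) + 2 + a) / 3
        omega) n
  rw [← pow_add, e1]
  refine det_row_lt (W := W) (N := fun l j => (NN 3 a l j).eval₂ iota3 x)
    (M := fun i j => M3 a x (i + 1) (j + 1)) h4 b b (by positivity) ?_
  intro κ _ _
  have h5 := Pot.final_strictA hC hM iota3 norm_iota3 hx1 hR hr
    (by rw [hl]; exact e1) (fun k hk => by rw [hl]; exact e2 k hk) κ b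
    ((root_NN hp3 a n κ b a 0).2 hbn)
  rw [eval_minor] at h5
  calc (∏ i, ‖W (b i) (κ i)‖) *
        ‖(Matrix.of fun i j : Fin n => (NN 3 a (κ i) (b j)).eval₂ iota3 x).det‖ ≤
      1 * ‖(Matrix.of fun i j : Fin n => (NN 3 a (κ i) (b j)).eval₂ iota3 x).det‖ := by
        refine mul_le_mul_of_nonneg_right ?_ (norm_nonneg _)
        exact Finset.prod_le_one (fun i _ => norm_nonneg _) fun i _ => h3 hx.le _ _
    _ < R * r ^ n := by rw [one_mul]; exact h5

theorem region_two {a : ℕ} (ha : a ≤ 2) {h : ℕ → ℕ → ℕ → ℤ}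
    (hC : Pot.CombA 3 a (BB 3) (Zb 3) (Ta 3 a) (ss 3) (tt 3) h) {x : C3}
    (hx : 1 / 3 < ‖x - a‖) (hx1 : ‖x - a‖ < 1) (n : ℕ) :
    ‖fred (M3 a x) n‖ = ‖(Pot.lead (NN 3 a) n).eval₂ iota3 x‖ := by
  have hx0 : ‖x‖ ≤ 1 := norm_le_one_of_sub hx1.le
  have hl : ‖(Pot.lead (NN 3 a) n).eval₂ iota3 x‖ =
      (1 / 3 : ℝ) ^ (n * (n + 1)) * ‖x - a‖ ^ S3 a n :=
    norm_lead_r ha hx1 (fun m hm => norm_sub_far hm hx) n
  have hxpos : 0 < ‖x - a‖ := lt_trans (by norm_num) hx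
  have hlow : (1 / 3 : ℝ) ^ (n * (n + 1)) * qq ^ (2 * S3 a n) ≤
      ‖(Pot.lead (NN 3 a) n).eval₂ iota3 x‖ := by
    rw [hl, ← third_pow]
    exact mul_le_mul_of_nonneg_left (pow_le_pow_left₀ (by norm_num) hx.le _) (by positivity)
  rw [← lead_M3 ha hx0]
  refine norm_fred_eq (cpt_M3 ha hx0) n (n + 2 * S3 a n) ?_ ?_ ?_
  · rw [lead_M3 ha hx0, hl]
    positivity
  · intro b hb hbn
    rw [lead_M3 ha hx0]
    exact (norm_minor_lt ha hx0 hb hbn (2 * S3 a n) le_rfl).trans_le hlow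
  · rw [lead_M3 ha hx0, hl]
    obtain ⟨P, hP⟩ := exists_poly a
      ((Finset.powersetCard n (Finset.range (n + 2 * S3 a n))).erase (Finset.range n))
    rw [← hP]
    refine three_circle P (by positivity) ?_ ?_ hx.le hx1.le
    · intro y hy hg
      rw [hP]
      refine ud_sum_lt _ _ (by positivity) fun S hS => ?_
      rw [Finset.mem_erase, Finset.mem_powersetCard] at hS
      rw [np_pmin_eq hS.2.2]
      exact strict_generic ha hC hy hg (not_lead hS.2.2 hS.1)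
    · intro y hy
      rw [hP]
      refine ud_sum_lt _ _ (by positivity) fun S hS => ?_
      rw [Finset.mem_erase, Finset.mem_powersetCard] at hS
      rw [np_pmin_eq hS.2.2]
      have h2 := norm_minor_lt ha hy (S.orderEmbOfFin hS.2.2).strictMono
        (not_lead hS.2.2 hS.1) 0 le_rfl
      rwa [pow_zero, mul_one] at h2

/-- **The central theorem, `p = 3`.** -/
theorem central3 (hC : ∀ a : ℕ, a ≤ 2 → ∃ h : ℕ → ℕ → ℕ → ℤ,
    Pot.CombA 3 a (BB 3) (Zb 3) (Ta 3 a) (ss 3) (tt 3) h) : CentralTheorem3 := by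
  intro x hx
  constructor
  · intro a ha hxa
    obtain ⟨h, hh⟩ := hC a ha
    have e1 : fred (Mat3 a x) = fred (M3 a x) := funext fun m => fred_M3 a x m
    have e2 : ∀ n, ‖(Pot.lead (NN 3 a) n).eval₂ iota3 x‖ = ‖ghost 3 (wx3 x) n‖ := by
      intro n
      rw [norm_lead_cl ha hxa, norm_ghost3_cl ha hxa]
      congr 2
      norm_num
    rw [e1]
    by_cases h3 : ‖x - a‖ ≤ 1 / 3
    · rw [region_one ha hh h3]
      exact newtonPolygon_congr_norm fun n => by rw [lead_M3 ha hx, e2]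
    · exact newtonPolygon_congr_norm fun n => by
        rw [region_two ha hh (not_le.1 h3) hxa, e2]
  · intro h
    have e1 : fred (Mat3 0 x) = fred (M3 0 x) := funext fun m => fred_M3 0 x m
    rw [e1]
    refine newtonPolygon_congr_norm fun n => ?_
    rw [region_gen hx h, norm_ghost3_gen hx h]
    congr 1
    norm_num

theorem centralTheorem3 : CentralTheorem3 :=
  central3 fun _ ha => ⟨_, GH.CombU.combA3 (Nat.lt_succ_of_le ha)⟩

end GH.Cen3

/-- **The ghost conjecture for `p = 3`, `N = 1`.** -/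
theorem GH.ghostConjecture_three_one : GH.GhostConjecture 3 :=
  GH.D3.ghostConjecture_three GH.Cen3.centralTheorem3
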