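import Pool.Agent.GH.NP

/-! Row C3-2: the Newton polygon of a Fredholm series from estimates of the principal
minors. -/

open Filter Topology

namespace GH.Cen3

variable {K : Type*} [NormedField K] [IsUltrametricDist K] [CompleteSpace K]

/-- `GH.newtonPolygon_fred` with estimates for the principal minors only. -/
theorem newtonPolygon_fred_pr {p : ℕ} (hp : 1 < p) {w c : ℕ → ℝ} {C : ℕ → ℕ → K}
    (hM : Cpt w c (sh C)) (D : ℕ → K)
    (hD : ∀ n, D n = (Matrix.of fun i j : Fin n => C (i + 1) (j + 1)).det)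
    (h1 : ∀ A r : ℝ, 0 < A → 0 < r → (∀ k, ‖D k‖ ≤ A * r ^ k) → ∀ (n : ℕ) (a : Fin n → ℕ),
      StrictMono a → ‖(Matrix.of fun i j : Fin n => C (a i + 1) (a j + 1)).det‖ ≤ A * r ^ n)
    (h2 : ∀ A r : ℝ, 0 < A → 0 < r → ∀ n, ‖D n‖ = A * r ^ n → (∀ k, k ≠ n → ‖D k‖ < A * r ^ k) →
      ∀ a : Fin n → ℕ, StrictMono a → (∃ i, n ≤ a i) →
        ‖(Matrix.of fun i j : Fin n => C (a i + 1) (a j + 1)).det‖ < A * r ^ n) :
    newtonPolygon p (fred C) = newtonPolygon p D := by
  have hf : fred C = fredCoeff (sh C) := funext fun m => fred_eq hM m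
  rw [hf]
  refine newtonPolygon_eq_of_touch hp ?_ ?_ ?_
  · intro A r hA hr hb n
    unfold fredCoeff
    rw [fr_norm_neg_one_pow_mul]
    refine ud_tsum_le _ (by positivity) fun S => ?_
    rw [np_pmin_eq S.2]
    exact h1 A r hA hr hb n _ (S.1.orderEmbOfFin S.2).strictMono
  · intro A r hA hr n hn hb
    unfold fredCoeff
    rw [fr_norm_neg_one_pow_mul]
    have hlead : ‖pmin (sh C) (Finset.range n)‖ = ‖D n‖ := by rw [np_lead, hD]
    rw [← hlead]
    have h0 : 0 < ‖D n‖ := by rw [hn]; positivity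
    refine ud_tsum_eq (f := fun S : {S : Finset ℕ // S.card = n} => pmin (sh C) S.1)
      (fr_tendsto hM n) ⟨Finset.range n, Finset.card_range n⟩ (by
        show 0 < ‖pmin (sh C) (Finset.range n)‖
        rw [hlead]; exact h0) fun S hS => ?_
    show ‖pmin (sh C) S.1‖ < ‖pmin (sh C) (Finset.range n)‖
    rw [hlead, hn, np_pmin_eq S.2]
    refine h2 A r hA hr n hn hb _ (S.1.orderEmbOfFin S.2).strictMono ?_
    by_contra hc
    push Not at hc
    apply hS
    apply Subtype.ext
    refine Finset.eq_of_subset_of_card_le (fun x hx => ?_) (by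
      rw [S.2]
      show (Finset.range n).card ≤ n
      rw [Finset.card_range])
    show x ∈ Finset.range n
    rw [Finset.mem_range]
    obtain ⟨i, hi⟩ := (Finset.range_orderEmbOfFin S.1 S.2).symm ▸ (show x ∈ (S.1 : Set ℕ) from hx)
    rw [← hi]
    exact hc i
  · intro r hr
    -- decay of the leading minors
    obtain ⟨C0, hC1, hC⟩ := fr_bdd hM.lim
    have hDle : ∀ n, ‖D n‖ ≤ ∏ j ∈ Finset.range n, c j := fun n => by
      rw [hD, ← np_lead]
      exact fr_pmin_le hM _
    have h4 : Tendsto (fun n => c n) atTop (𝓝 0) := by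
      have := hM.lim
      rwa [Nat.cofinite_eq_atTop] at this
    obtain ⟨N, hN⟩ := eventually_atTop.1 (h4.eventually_lt_const
      (show (0 : ℝ) < 1 / (2 * r) by positivity))
    have h5 : ∀ n, N ≤ n → (∏ j ∈ Finset.range n, c j) * r ^ n ≤
        (C0 ^ N * r ^ N) * (1 / 2) ^ (n - N) := by
      intro n hn
      obtain ⟨k, rfl⟩ := Nat.exists_eq_add_of_le hn
      rw [Finset.prod_range_add, Nat.add_sub_cancel_left, pow_add]
      have a1 : ∏ j ∈ Finset.range N, c j ≤ C0 ^ N := by
        calc ∏ j ∈ Finset.range N, c j ≤ ∏ j ∈ Finset.range N, C0 :=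
              Finset.prod_le_prod (fun i _ => hM.nonneg i) fun i _ => hC i
          _ = C0 ^ N := by rw [Finset.prod_const, Finset.card_range]
      have a2 : ∏ j ∈ Finset.range k, c (N + j) ≤ (1 / (2 * r)) ^ k := by
        calc ∏ j ∈ Finset.range k, c (N + j) ≤ ∏ j ∈ Finset.range k, (1 / (2 * r)) :=
              Finset.prod_le_prod (fun i _ => hM.nonneg _) fun i _ => (hN _ (by omega)).le
          _ = _ := by rw [Finset.prod_const, Finset.card_range]
      have e : (1 / (2 * r)) ^ k * r ^ k = (1 / 2) ^ k := by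
        rw [← mul_pow]
        congr 1
        field_simp
      calc (∏ j ∈ Finset.range N, c j) * (∏ j ∈ Finset.range k, c (N + j)) * (r ^ N * r ^ k)
          ≤ C0 ^ N * (1 / (2 * r)) ^ k * (r ^ N * r ^ k) := by
            refine mul_le_mul_of_nonneg_right (mul_le_mul a1 a2
              (Finset.prod_nonneg fun i _ => hM.nonneg _) (by positivity)) (by positivity)
        _ = (C0 ^ N * r ^ N) * ((1 / (2 * r)) ^ k * r ^ k) := by ring
        _ = _ := by rw [e]
    have h6 : Tendsto (fun n : ℕ => (C0 ^ N * r ^ N) * (1 / 2 : ℝ) ^ (n - N)) atTop (𝓝 0) := by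
      have a1 := (tendsto_pow_atTop_nhds_zero_of_lt_one (r := (1 / 2 : ℝ)) (by norm_num)
        (by norm_num)).comp (tendsto_sub_atTop_nat N)
      simpa using a1.const_mul (C0 ^ N * r ^ N)
    refine squeeze_zero' (Eventually.of_forall fun n => by positivity) ?_ h6
    filter_upwards [eventually_ge_atTop N] with n hn
    exact (mul_le_mul_of_nonneg_right (hDle n) (by positivity)).trans (h5 n hn)

/-- The norm of one coefficient of the Fredholm series: the minors outside `{0, ..., N-1}` are
smaller than the leading one one by one, those inside in total. -/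
theorem norm_fred_eq {w c : ℕ → ℝ} {C : ℕ → ℕ → K} (hM : Cpt w c (sh C)) (n N : ℕ)
    (h0 : 0 < ‖(Matrix.of fun i j : Fin n => C (i + 1) (j + 1)).det‖)
    (h1 : ∀ a : Fin n → ℕ, StrictMono a → (∃ i, N ≤ a i) →
      ‖(Matrix.of fun i j : Fin n => C (a i + 1) (a j + 1)).det‖ <
        ‖(Matrix.of fun i j : Fin n => C (i + 1) (j + 1)).det‖)
    (h2 : ‖∑ S ∈ (Finset.powersetCard n (Finset.range N)).erase (Finset.range n),
      pmin (sh C) S‖ < ‖(Matrix.of fun i j : Fin n => C (i + 1) (j + 1)).det‖) :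
    ‖fred C n‖ = ‖(Matrix.of fun i j : Fin n => C (i + 1) (j + 1)).det‖ := by
  classical
  have hnN : n ≤ N := by
    by_contra hc
    push Not at hc
    have h3 := h1 (fun i => (i : ℕ)) (fun i j hij => hij) ⟨⟨N, hc⟩, le_rfl⟩
    exact lt_irrefl _ h3
  rw [← np_lead] at h0 h1 h2 ⊢
  rw [fred_eq hM n]
  unfold fredCoeff
  rw [fr_norm_neg_one_pow_mul]
  have hf := fr_tendsto hM n
  have hf1 : Tendsto (fun S : {S : Finset ℕ // S.card = n} =>
      if S.1 ⊆ Finset.range N then pmin (sh C) S.1 else 0) cofinite (𝓝 0) := by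
    refine squeeze_zero_norm (fun S => ?_) (tendsto_norm_zero.comp hf)
    show ‖if S.1 ⊆ Finset.range N then pmin (sh C) S.1 else 0‖ ≤ ‖pmin (sh C) S.1‖
    split_ifs
    · exact le_rfl
    · simp
  have hf2 : Tendsto (fun S : {S : Finset ℕ // S.card = n} =>
      if S.1 ⊆ Finset.range N then 0 else pmin (sh C) S.1) cofinite (𝓝 0) := by
    refine squeeze_zero_norm (fun S => ?_) (tendsto_norm_zero.comp hf)
    show ‖if S.1 ⊆ Finset.range N then 0 else pmin (sh C) S.1‖ ≤ ‖pmin (sh C) S.1‖
    split_ifs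
    · simp
    · exact le_rfl
  have h3 : ∑' S : {S : Finset ℕ // S.card = n}, pmin (sh C) S.1 =
      ∑' S : {S : Finset ℕ // S.card = n},
        (if S.1 ⊆ Finset.range N then pmin (sh C) S.1 else 0) +
      ∑' S : {S : Finset ℕ // S.card = n},
        (if S.1 ⊆ Finset.range N then 0 else pmin (sh C) S.1) := by
    rw [← Summable.tsum_add (ud_summable hf1) (ud_summable hf2)]
    refine tsum_congr fun S => ?_
    split_ifs
    · rw [add_zero]
    · rw [zero_add]
  have h4 : ∑' S : {S : Finset ℕ // S.card = n},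
      (if S.1 ⊆ Finset.range N then pmin (sh C) S.1 else 0) =
      ∑ S ∈ Finset.powersetCard n (Finset.range N), pmin (sh C) S := by
    rw [tsum_eq_sum (s := (Finset.powersetCard n (Finset.range N)).subtype
      (fun S => S.card = n))]
    · rw [Finset.sum_congr rfl (g := fun S : {S : Finset ℕ // S.card = n} => pmin (sh C) S.1)]
      · exact Finset.sum_subtype_of_mem (pmin (sh C))
          fun S hS => (Finset.mem_powersetCard.1 hS).2
      · intro S hS
        rw [Finset.mem_subtype, Finset.mem_powersetCard] at hS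
        rw [if_pos hS.1]
    · intro S hS
      rw [Finset.mem_subtype, Finset.mem_powersetCard] at hS
      rw [if_neg fun h => hS ⟨h, S.2⟩]
  have h5 : Finset.range n ∈ Finset.powersetCard n (Finset.range N) := by
    rw [Finset.mem_powersetCard]
    exact ⟨Finset.range_subset_range.2 hnN, Finset.card_range n⟩
  rw [h3, h4, ← Finset.add_sum_erase _ _ h5]
  apply ud_eq_of_lt
  rw [add_assoc, add_sub_cancel_left]
  refine lt_of_le_of_lt (IsUltrametricDist.norm_add_le_max _ _) (max_lt h2 ?_)
  refine ud_tsum_lt hf2 h0 fun S => ?_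
  split_ifs with hS
  · simpa using h0
  · rw [np_pmin_eq S.2]
    refine h1 _ (S.1.orderEmbOfFin S.2).strictMono ?_
    rw [Finset.not_subset] at hS
    obtain ⟨x, hx, hxN⟩ := hS
    obtain ⟨i, hi⟩ := (Finset.range_orderEmbOfFin S.1 S.2).symm ▸ (show x ∈ (S.1 : Set ℕ) from hx)
    refine ⟨i, ?_⟩
    rw [hi]
    rw [Finset.mem_range] at hxN
    omega

end GH.Cen3
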