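import Pool.Agent.GH.MatU.Defs

/-! Row C3-1: the number of zeros in one residue disc. -/

namespace GH.MatU

open Finset

private theorem ta_cnt (L U N : ℕ) :
    ∑ u ∈ range N, (if L ≤ u ∧ u < U then 1 else 0) = min U N - L := by
  induction N with
  | zero => simp
  | succ N ih =>
    rw [sum_range_succ, ih]
    split_ifs <;> omega

private theorem ta_val {a : ℕ} (ha : a ≤ 2) (n u : ℕ) :
    Ta 3 a n (4 * a + 6 * u) = min (n - u / 2) (a + 2 * u - 1 - u / 2 - n) := by
  have h1 : (4 * a + 6 * u) % 3 = a := by omega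
  have h2 : (4 * a + 6 * u) / 3 = a + 2 * u := by omega
  have h3 : Even (4 * a + 6 * u) := ⟨2 * a + 3 * u, by ring⟩
  have h4 : (a + 2 * u - a) / (3 + 1) = u / 2 := by omega
  rw [Ta, if_pos h1, TT, if_pos (Or.inr h3), tt, h1, h2, h4]

private theorem ta_reindex {a : ℕ} (ha : a ≤ 2) (n : ℕ) :
    ∑ m ∈ range (Zb 3 n), Ta 3 a n m =
      ∑ u ∈ range (2 * n), min (n - u / 2) (a + 2 * u - 1 - u / 2 - n) := by
  have hZ : Zb 3 n = 12 * n + 3 := by simp [Zb]
  rw [hZ]
  have h1 : ∑ u ∈ range (2 * n), min (n - u / 2) (a + 2 * u - 1 - u / 2 - n) =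
      ∑ m ∈ (range (2 * n)).image (fun u => 4 * a + 6 * u), Ta 3 a n m := by
    rw [sum_image]
    · exact sum_congr rfl (fun u _ => (ta_val ha n u).symm)
    · intro x _ y _ hxy
      simp only at hxy
      omega
  rw [h1]
  symm
  apply sum_subset
  · intro m hm
    obtain ⟨u, hu, rfl⟩ := mem_image.1 hm
    rw [mem_range] at hu ⊢
    omega
  · intro m _ hm2
    by_contra hcon
    apply hm2
    rw [mem_image]
    rw [Ta] at hcon
    split_ifs at hcon with h1
    rw [TT] at hcon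
    split_ifs at hcon with h2
    · rcases h2 with h2 | h2
      · omega
      · rw [Nat.even_iff] at h2
        rw [tt] at hcon
        refine ⟨(m / 3 - a) / 2, ?_, ?_⟩
        · rw [mem_range]
          omega
        · omega
    · exact absurd rfl hcon
    · exact absurd rfl hcon

private theorem ta_step {a : ℕ} (ha : a ≤ 2) (n : ℕ) :
    ∑ u ∈ range (2 * (n + 1)), min ((n + 1) - u / 2) (a + 2 * u - 1 - u / 2 - (n + 1)) =
      ∑ u ∈ range (2 * n), min (n - u / 2) (a + 2 * u - 1 - u / 2 - n) + (2 * n + 2 + a) / 3 := by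
  have h1 : ∑ u ∈ range (2 * (n + 1)), min (n - u / 2) (a + 2 * u - 1 - u / 2 - n) =
      ∑ u ∈ range (2 * n), min (n - u / 2) (a + 2 * u - 1 - u / 2 - n) := by
    rw [mul_add, mul_one, sum_range_succ, sum_range_succ]
    omega
  rw [← h1]
  have h2 : ∑ u ∈ range (2 * (n + 1)), (min ((n + 1) - u / 2) (a + 2 * u - 1 - u / 2 - (n + 1)) +
      (if (2 * n + 5 - 2 * a) / 3 ≤ u ∧ u < (2 * n + 3 - a) / 2 then 1 else 0)) =
      ∑ u ∈ range (2 * (n + 1)), (min (n - u / 2) (a + 2 * u - 1 - u / 2 - n) +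
      (if (2 * n + 4 - a) / 2 ≤ u ∧ u < 2 * (n + 1) then 1 else 0)) := by
    apply sum_congr rfl
    intro u hu
    rw [mem_range] at hu
    by_cases c1 : (2 * n + 5 - 2 * a) / 3 ≤ u ∧ u < (2 * n + 3 - a) / 2
    · rw [if_pos c1, if_neg (by omega)]
      omega
    · rw [if_neg c1]
      by_cases c2 : (2 * n + 4 - a) / 2 ≤ u ∧ u < 2 * (n + 1)
      · rw [if_pos c2]
        omega
      · rw [if_neg c2]
        omega
  rw [sum_add_distrib, sum_add_distrib, ta_cnt, ta_cnt] at h2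
  have h3 : min ((2 * n + 3 - a) / 2) (2 * (n + 1)) - (2 * n + 5 - 2 * a) / 3 +
      (2 * n + 2 + a) / 3 = min (2 * (n + 1)) (2 * (n + 1)) - (2 * n + 4 - a) / 2 := by
    have h4 : (2 * n + 5 - 2 * a) / 3 + a = (2 * n + 5 + a) / 3 := by omega
    have h5 : (2 * n + 5 + a) / 3 = (2 * n + 2 + a) / 3 + 1 := by omega
    interval_cases a <;> omega
  omega

/-- `S_a(n+1) - S_a(n) = ⌊(2n+2+a)/3⌋`. -/
theorem sum_Ta3 {a : ℕ} (ha : a ≤ 2) (n : ℕ) :
    ∑ m ∈ Finset.range (Zb 3 n), Ta 3 a n m = ∑ k ∈ Finset.range n, (2 * k + 2 + a) / 3 := by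
  rw [ta_reindex ha]
  induction n with
  | zero => simp
  | succ n ih => rw [ta_step ha, ih, sum_range_succ]

end GH.MatU
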