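import Pool.Agent.GH.Cen3.Row
import Pool.Agent.GH.Cen3.NPr
import Pool.Agent.GH.Cen3.Circ
import Pool.Agent.GH.Cen3.TentA
import Pool.Agent.GH.Cen3.GhostN
import Pool.Agent.GH.Pot.AFinal
import Pool.Agent.GH.D3.UBound3

/-!
# The central disc, `p = 3`: the three regions
-/

open Filter Topology

noncomputable section

namespace GH.Cen3

open GH.MatU GH.D3

/-! ### Strictly convex sequences -/

theorem exists_line {v d : ℕ → ℕ} (hv : ∀ k, v (k + 1) = v k + d k) (hd : StrictMono d) (n : ℕ) :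
    ∃ R r : ℝ, 0 < R ∧ 0 < r ∧ (1 / 3 : ℝ) ^ v n = R * r ^ n ∧
      ∀ k, k ≠ n → (1 / 3 : ℝ) ^ v k < R * r ^ k := by
  obtain ⟨r, hr⟩ : ∃ r : ℝ, r = Real.sqrt 3 * (1 / 3) ^ d n := ⟨_, rfl⟩
  have h3 : (0 : ℝ) < Real.sqrt 3 := Real.sqrt_pos.2 (by norm_num)
  have h31 : (1 : ℝ) < Real.sqrt 3 := by
    rw [← Real.sqrt_one]
    exact Real.sqrt_lt_sqrt (by norm_num) (by norm_num)
  have h33 : Real.sqrt 3 * Real.sqrt 3 = 3 := Real.mul_self_sqrt (by norm_num)
  have hr0 : 0 < r := by rw [hr]; positivity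
  obtain ⟨f, hf⟩ : ∃ f : ℕ → ℝ, f = fun k => (1 / 3 : ℝ) ^ v k / r ^ k := ⟨_, rfl⟩
  have hf0 : ∀ k, 0 < f k := fun k => by rw [hf]; positivity
  have hstep : ∀ k, f (k + 1) = f k * ((1 / 3 : ℝ) ^ d k / r) := by
    intro k
    rw [hf]
    show (1 / 3 : ℝ) ^ v (k + 1) / r ^ (k + 1) = (1 / 3 : ℝ) ^ v k / r ^ k * ((1 / 3 : ℝ) ^ d k / r)
    rw [hv, pow_add, pow_succ]
    field_simp
  have hup : ∀ k, n ≤ k → f (k + 1) < f k := by
    intro k hk
    rw [hstep]
    have h1 : (1 / 3 : ℝ) ^ d k / r < 1 := by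
      rw [div_lt_one hr0, hr]
      calc (1 / 3 : ℝ) ^ d k ≤ (1 / 3 : ℝ) ^ d n :=
            pow_le_pow_of_le_one (by norm_num) (by norm_num) (hd.monotone hk)
        _ < Real.sqrt 3 * (1 / 3) ^ d n := by
            have : (0 : ℝ) < (1 / 3) ^ d n := by positivity
            nlinarith
    have := hf0 k
    nlinarith
  have hdown : ∀ k, k < n → f k < f (k + 1) := by
    intro k hk
    rw [hstep]
    have h1 : 1 < (1 / 3 : ℝ) ^ d k / r := by
      rw [one_lt_div hr0, hr]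
      have h2 : d k + 1 ≤ d n := hd hk
      calc Real.sqrt 3 * (1 / 3) ^ d n ≤ Real.sqrt 3 * (1 / 3) ^ (d k + 1) :=
            mul_le_mul_of_nonneg_left
              (pow_le_pow_of_le_one (by norm_num) (by norm_num) h2) h3.le
        _ < (1 / 3) ^ d k := by
            rw [pow_succ]
            have : (0 : ℝ) < (1 / 3) ^ d k := by positivity
            nlinarith
    have := hf0 k
    nlinarith
  have hmax : ∀ k, k ≠ n → f k < f n := by
    intro k hk
    rcases lt_or_gt_of_ne hk with h | h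
    · obtain ⟨e, he⟩ := Nat.exists_eq_add_of_lt h
      have : ∀ e k, k + e + 1 ≤ n → f k < f (k + e + 1) := by
        intro e
        induction e with
        | zero => intro k hk; exact hdown k (by omega)
        | succ e ih =>
          intro k hk
          exact (ih k (by omega)).trans (hdown (k + e + 1) (by omega))
      have h1 := this e k (by omega)
      rwa [← he] at h1
    · obtain ⟨e, he⟩ := Nat.exists_eq_add_of_lt h
      have : ∀ e, f (n + e + 1) < f n := by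
        intro e
        induction e with
        | zero => exact hup n le_rfl
        | succ e ih => exact (hup (n + e + 1) (by omega)).trans ih
      rw [he]
      exact this e
  refine ⟨f n, r, hf0 n, hr0, ?_, fun k hk => ?_⟩
  · rw [hf]
    field_simp
  · have h1 := hmax k hk
    have h2 : (1 / 3 : ℝ) ^ v k = f k * r ^ k := by
      rw [hf]
      field_simp
    rw [h2]
    exact mul_lt_mul_of_pos_right h1 (pow_pos hr0 k)

/-! ### The norms of the leading minors -/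

theorem hp3 : (3 : ℕ) = 2 ∨ (3 : ℕ) = 3 := Or.inr rfl

/-- `S_a(n)`. -/
def S3 (a n : ℕ) : ℕ := ∑ m ∈ Finset.range (Zb 3 n), Ta 3 a n m

theorem S3_succ {a : ℕ} (ha : a ≤ 2) (n : ℕ) : S3 a (n + 1) = S3 a n + (2 * n + 2 + a) / 3 := by
  rw [S3, S3, sum_Ta3 ha, sum_Ta3 ha, Finset.sum_range_succ]

theorem norm_lead_cl {a : ℕ} (ha : a ≤ 2) {x : C3} (hx : ‖x - a‖ < 1) (n : ℕ) :
    ‖(Pot.lead (NN 3 a) n).eval₂ iota3 x‖ = (1 / 3 : ℝ) ^ (n * (n + 1)) *
      ∏ m ∈ Finset.range (Zb 3 n), ‖x - m‖ ^ Ta 3 a n m := by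
  rw [Pot.a_norm_lead (matA_NN hp3 (by omega : a < 3)) iota3 norm_iota3 hx n]
  congr 1
  have h1 : BB 3 n = n * (n + 1) := by rw [BB, if_neg (by decide)]
  rw [h1, Real.rpow_neg (by positivity), Real.rpow_natCast, ← inv_pow]
  norm_num

theorem norm_sub_le_one {x : C3} (hx : ‖x‖ ≤ 1) (m : ℕ) : ‖x - m‖ ≤ 1 := by
  have := IsUltrametricDist.norm_add_le_max x (-(m : C3))
  rw [← sub_eq_add_neg, norm_neg] at this
  exact this.trans (max_le hx (IsUltrametricDist.norm_natCast_le_one C3 m))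

theorem norm_le_one_of_sub {x : C3} {m : ℕ} (hx : ‖x - m‖ ≤ 1) : ‖x‖ ≤ 1 := by
  have := IsUltrametricDist.norm_add_le_max (x - m) (m : C3)
  rw [sub_add_cancel] at this
  exact this.trans (max_le hx (IsUltrametricDist.norm_natCast_le_one C3 m))

/-- the leading minor at a point with all distances equal -/
theorem norm_lead_r {a : ℕ} (ha : a ≤ 2) {x : C3} (hx : ‖x - a‖ < 1) {r : ℝ}
    (h : ∀ m : ℕ, m % 3 = a → ‖x - m‖ = r) (n : ℕ) :
    ‖(Pot.lead (NN 3 a) n).eval₂ iota3 x‖ = (1 / 3 : ℝ) ^ (n * (n + 1)) * r ^ S3 a n := by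
  rw [norm_lead_cl ha hx, S3, ← Finset.prod_pow_eq_pow_sum]
  congr 1
  refine Finset.prod_congr rfl fun m _ => ?_
  by_cases hm : m % 3 = a
  · rw [h m hm]
  · rw [Ta, if_neg hm, pow_zero, pow_zero]

theorem norm_natCast_mod {a m : ℕ} (hm : m % 3 = a) : ‖(m : C3) - a‖ ≤ 1 / 3 := by
  have h1 : (m : C3) - a = 3 * ((m / 3 : ℕ) : C3) := by
    have h2 : m = a + 3 * (m / 3) := by omega
    have h3 : (m : C3) = ((a + 3 * (m / 3) : ℕ) : C3) := congrArg _ h2
    rw [h3]
    push_cast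
    ring
  rw [h1, norm_mul, gw_norm_three]
  have := IsUltrametricDist.norm_natCast_le_one C3 (m / 3)
  linarith [norm_nonneg ((m / 3 : ℕ) : C3)]

theorem norm_sub_far {a m : ℕ} (hm : m % 3 = a) {x : C3} (hx : 1 / 3 < ‖x - a‖) :
    ‖x - m‖ = ‖x - a‖ := by
  have h1 : x - m = (x - a) + -((m : C3) - a) := by ring
  have h2 : ‖-((m : C3) - a)‖ < ‖x - a‖ := by
    rw [norm_neg]
    exact (norm_natCast_mod hm).trans_lt hx
  rw [h1, IsUltrametricDist.norm_add_eq_max_of_norm_ne_norm h2.ne']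
  exact max_eq_left h2.le

/-- The norm of the leading minor at the generic points. -/
theorem norm_lead_gen {x : C3} (hx : ‖x‖ ≤ 1) (h : ∀ b : ℕ, b ≤ 2 → ‖x - b‖ = 1) (n : ℕ) :
    ‖(Pot.lead (NN 3 0) n).eval₂ iota3 x‖ = (1 / 3 : ℝ) ^ (n * (n + 1)) := by
  rw [lead_NN_QQ hp3, Polynomial.eval₂_mul, Polynomial.eval₂_C, norm_mul,
    norm_QQ_gen hp3 0 n norm_iota3 hx (fun b hb => h b (by omega)), mul_one, norm_iota3,
    norm_pow]
  have h1 : BB 3 n = n * (n + 1) := by rw [BB, if_neg (by decide)]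
  rw [h1]
  congr 1
  have := PadicInt.norm_p (p := 3)
  rw [this]
  norm_num

/-! ### Region 1: `‖x - a‖ ≤ 1/3` -/

theorem region_one {a : ℕ} (ha : a ≤ 2) {h : ℕ → ℕ → ℕ → ℤ}
    (hC : Pot.CombA 3 a (BB 3) (Zb 3) (Ta 3 a) (ss 3) (tt 3) h) {x : C3}
    (hx : ‖x - a‖ ≤ 1 / 3) :
    newtonPolygon 3 (fred (M3 a x)) =
      newtonPolygon 3 fun n => (Matrix.of fun i j : Fin n => M3 a x (i + 1) (j + 1)).det := by
  have hx1 : ‖x - a‖ < 1 := hx.trans_lt (by norm_num)
  have hx0 : ‖x‖ ≤ 1 := norm_le_one_of_sub hx1.le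
  have hM := matA_NN hp3 (by omega : a < 3)
  obtain ⟨W, -, -, h3, h4⟩ := exists_row ha hx0
  refine newtonPolygon_fred_pr (by norm_num) (cpt_M3 ha hx0) _ (fun n => rfl) ?_ ?_
  · intro A r hA hr hb n b hbm
    refine det_row_le (W := W) (N := fun l j => (NN 3 a l j).eval₂ iota3 x)
      (M := fun i j => M3 a x (i + 1) (j + 1)) h4 b b (by positivity) ?_
    intro κ _ _
    have h5 := Pot.final_weakA hC hM iota3 norm_iota3 hx1 hA hr
      (fun k => by rw [← lead_M3 ha hx0]; exact hb k) κ b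
    rw [eval_minor] at h5
    calc (∏ i, ‖W (b i) (κ i)‖) *
          ‖(Matrix.of fun i j : Fin n => (NN 3 a (κ i) (b j)).eval₂ iota3 x).det‖ ≤
        1 * (A * r ^ n) := by
          refine mul_le_mul ?_ h5 (norm_nonneg _) zero_le_one
          exact Finset.prod_le_one (fun i _ => norm_nonneg _) fun i _ => h3 hx _ _
      _ = _ := one_mul _
  · intro A r hA hr n hn hb b hbm hbn
    refine det_row_lt (W := W) (N := fun l j => (NN 3 a l j).eval₂ iota3 x)
      (M := fun i j => M3 a x (i + 1) (j + 1)) h4 b b (by positivity) ?_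
    intro κ _ _
    have h5 := Pot.final_strictA hC hM iota3 norm_iota3 hx1 hA hr
      (by rw [← lead_M3 ha hx0]; exact hn)
      (fun k hk => by rw [← lead_M3 ha hx0]; exact hb k hk) κ b
      ((root_NN hp3 a n κ b a 0).2 hbn)
    rw [eval_minor] at h5
    calc (∏ i, ‖W (b i) (κ i)‖) *
          ‖(Matrix.of fun i j : Fin n => (NN 3 a (κ i) (b j)).eval₂ iota3 x).det‖ ≤
        1 * ‖(Matrix.of fun i j : Fin n => (NN 3 a (κ i) (b j)).eval₂ iota3 x).det‖ := by
          refine mul_le_mul_of_nonneg_right ?_ (norm_nonneg _)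
          exact Finset.prod_le_one (fun i _ => norm_nonneg _) fun i _ => h3 hx _ _
      _ < A * r ^ n := by rw [one_mul]; exact h5

end GH.Cen3
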