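import Pool.Agent.GH.MatU.LeadA
import Pool.Agent.GH.D3.Base3
import Pool.Agent.GH.UMatB_a

/-!
# The relation between the matrix of `U_3` and `N`
-/

open PowerSeries

noncomputable section

namespace GH.Cen3

open GH.MatU GH.D3

variable {K : Type*} [Field K] [CharZero K]

/-! ### Powers -/

/-- `gs^m (1-s)^k` depends only on `k - m`. -/
theorem gs_pow_mul {R : Type*} [CommRing R] {m k m' k' : ℕ} (h : k + m' = k' + m) :
    gs R ^ m * (1 - X) ^ k = gs R ^ m' * (1 - X) ^ k' := by
  have h1 := gs_mul R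
  calc gs R ^ m * (1 - X) ^ k = gs R ^ m * (1 - X) ^ k * ((1 - X) * gs R) ^ m' := by
        rw [h1, one_pow, mul_one]
    _ = gs R ^ (m + m') * (1 - X) ^ (k + m') := by rw [mul_pow, pow_add, pow_add]; ring
    _ = gs R ^ (m + m') * (1 - X) ^ (k' + m) := by rw [h]
    _ = gs R ^ m' * (1 - X) ^ k' * ((1 - X) * gs R) ^ m := by rw [mul_pow, pow_add, pow_add]; ring
    _ = gs R ^ m' * (1 - X) ^ k' := by rw [h1, one_pow, mul_one]

theorem coeff_one_sub_pow {R : Type*} [CommRing R] (n : ℕ) :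
    coeff (n + 1) ((1 - X : PowerSeries R) ^ n) = 0 := by
  have h1 : (1 - X : PowerSeries R) = 1 + C (-1) * X := by simp [sub_eq_add_neg]
  rw [h1, coeff_one_add_mul_X_pow, Nat.choose_succ_self]
  simp

theorem lag_mono {m N : ℕ} (h : m ≤ N) :
    coeff N ((X * gs K) ^ m * ((1 - X) ^ N * gs K)) = if m = N then 1 else 0 := by
  have h1 : (X * gs K) ^ m * ((1 - X) ^ N * gs K) = X ^ m * (gs K ^ 1 * (1 - X) ^ (N - m)) := by
    have h2 : gs K ^ (m + 1) * (1 - X) ^ N = gs K ^ 1 * (1 - X) ^ (N - m) :=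
      gs_pow_mul (by omega)
    rw [← h2, mul_pow, pow_succ]
    ring
  obtain ⟨d, rfl⟩ := Nat.exists_eq_add_of_le h
  have h2 := coeff_X_pow_mul (gs K ^ 1 * (1 - X) ^ d) m d
  rw [h1, Nat.add_sub_cancel_left, add_comm m d, h2]
  rcases d with _ | d
  · rw [if_pos (by omega), pow_zero, mul_one, pow_one, gs, coeff_mk]
  · rw [if_neg (by omega)]
    have h3 : gs K ^ 1 * (1 - X) ^ (d + 1) = gs K ^ 0 * (1 - X) ^ d := gs_pow_mul (by omega)
    rw [h3, pow_zero, one_mul, coeff_one_sub_pow]

/-- Change of variables `T = c⁻¹ s/(1-s)`. -/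
theorem lag (c : K) (hc : c ≠ 0) (F : PowerSeries K) (N : ℕ) :
    coeff N F = c ^ N * coeff N (F.subst (C c⁻¹ * (X * gs K)) * ((1 - X) ^ N * gs K)) := by
  set t : PowerSeries K := C c⁻¹ * (X * gs K) with ht
  have ht0 : constantCoeff t = 0 := by simp [ht]
  have hs : HasSubst t := HasSubst.of_constantCoeff_zero' ht0
  obtain ⟨G, hG⟩ : X ^ (N + 1) ∣ F - ∑ m ∈ Finset.range (N + 1), C (coeff m F) * X ^ m := by
    rw [X_pow_dvd_iff]
    intro m hm
    rw [map_sub, map_sum, Finset.sum_eq_single m]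
    · rw [coeff_C_mul, coeff_X_pow_self, mul_one, sub_self]
    · intro b _ hb
      rw [coeff_C_mul, coeff_X_pow, if_neg (Ne.symm hb), mul_zero]
    · intro h
      exact absurd (Finset.mem_range.2 hm) h
  have hF : F = ∑ m ∈ Finset.range (N + 1), C (coeff m F) * X ^ m + X ^ (N + 1) * G := by
    rw [← hG]
    ring
  have h1 : F.subst t = ∑ m ∈ Finset.range (N + 1), C (coeff m F) * t ^ m +
      t ^ (N + 1) * G.subst t := by
    conv_lhs => rw [hF]
    rw [subst_add hs, subst_mul hs, subst_pow hs, subst_X hs]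
    congr 1
    rw [← coe_substAlgHom hs, map_sum]
    refine Finset.sum_congr rfl fun m _ => ?_
    rw [coe_substAlgHom hs, subst_mul hs, subst_pow hs, subst_X hs, ub_subst_C hs]
  have h2 : coeff N (t ^ (N + 1) * G.subst t * ((1 - X) ^ N * gs K)) = 0 := by
    have h3 : X ^ (N + 1) ∣ t ^ (N + 1) * G.subst t * ((1 - X) ^ N * gs K) := by
      refine Dvd.dvd.mul_right (Dvd.dvd.mul_right (pow_dvd_pow_of_dvd ?_ _) _) _
      exact Dvd.dvd.mul_left (dvd_mul_right _ _) _
    exact X_pow_dvd_iff.1 h3 N (by omega)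
  rw [h1, add_mul, map_add, h2, add_zero, Finset.sum_mul, map_sum, Finset.sum_eq_single N]
  · have h3 : C (coeff N F) * t ^ N * ((1 - X) ^ N * gs K) =
        C (coeff N F * c⁻¹ ^ N) * ((X * gs K) ^ N * ((1 - X) ^ N * gs K)) := by
      rw [ht, mul_pow, ← map_pow, map_mul]
      ring
    rw [h3, coeff_C_mul, lag_mono le_rfl, if_pos rfl, mul_one, inv_pow]
    field_simp
  · intro m hm hmN
    have hm' := Finset.mem_range.1 hm
    have h3 : C (coeff m F) * t ^ m * ((1 - X) ^ N * gs K) =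
        C (coeff m F * c⁻¹ ^ m) * ((X * gs K) ^ m * ((1 - X) ^ N * gs K)) := by
      rw [ht, mul_pow, ← map_pow, map_mul]
      ring
    rw [h3, coeff_C_mul, lag_mono (by omega), if_neg hmN, mul_zero]
  · intro h
    exact absurd (Finset.mem_range.2 (by omega)) h

/-- `(u^e)(t) = (u(t))^e`. -/
theorem ppow_subst {u t : PowerSeries K} (hu : constantCoeff u = 1) (ht : constantCoeff t = 0)
    (e : K) : (ppow u e).subst t = ppow (u.subst t) e := by
  have hs : HasSubst t := HasSubst.of_constantCoeff_zero' ht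
  unfold ppow
  rw [subst_comp_subst_apply (ub_hs hu) hs]
  congr 1
  rw [← coe_substAlgHom hs, map_sub, map_one]

/-! ### `L^y` -/

theorem map_LX (φ : ℤ_[3] →+* K) (y : K) :
    PowerSeries.map (Polynomial.eval₂RingHom φ y) (LX 3) =
      ppow (1 + C (3 : K) * PowerSeries.map φ (thL 3)) y := by
  have h0 : constantCoeff (PowerSeries.map φ (thL 3)) = 0 := by
    rw [← coeff_zero_eq_constantCoeff_apply, coeff_map, coeff_zero_eq_constantCoeff_apply,
      thL_const, map_zero]
  rw [LX, Lpow, map_subst' (hasSubst_C 3 (thL_const 3)), ← ub_rescale_subst 3 y h0]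
  have h1 : PowerSeries.map (Polynomial.eval₂RingHom φ y) (PowerSeries.mk (cc 3)) =
      rescale 3 (binS y) := by
    ext m
    rw [coeff_map, coeff_mk, coeff_rescale, ub_coeff_binS, cc, map_mul]
    have h2 : Polynomial.eval₂RingHom φ y (Polynomial.C (uu 3 m)) = φ (uu 3 m) := by
      simp
    have h3 : Polynomial.eval₂RingHom φ y (descPochhammer ℤ_[3] m) =
        ∏ i ∈ Finset.range m, (y - i) := by
      rw [Polynomial.coe_eval₂RingHom, Polynomial.eval₂_eq_eval_map, descPochhammer_map,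
        descPochhammer_eval_eq_prod_range]
    have h4 : φ (uu 3 m) * (m.factorial : K) = 3 ^ m := by
      have := congrArg φ (uu_mul 3 m)
      rw [map_mul, map_pow, map_natCast, map_natCast] at this
      push_cast at this
      exact this
    have h5 : (m.factorial : K) ≠ 0 := by exact_mod_cast m.factorial_ne_zero
    rw [h2, h3, ← h4]
    field_simp
  rw [h1, map_comp']
  congr 1
  have h2 : (Polynomial.eval₂RingHom φ y).comp Polynomial.C = φ := by
    ext b
    simp
  rw [h2]

end GH.Cen3
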