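import Pool.Agent.GH.Cen3.Rel

/-!
# The relation between the matrix of `U_3` and `N`, second part
-/

open PowerSeries

noncomputable section

namespace GH.Cen3

open GH.MatU GH.D3

variable {K : Type*} [Field K] [CharZero K]

/-- `R = (1 - s^3)/(1-s)^3`. -/
def RR (K : Type*) [Field K] : PowerSeries K := (1 - X ^ 3) * gs K ^ 3

/-- `L = (1-s)^3/(1-s^3)`. -/
def LL (φ : ℤ_[3] →+* K) : PowerSeries K := 1 + C (3 : K) * PowerSeries.map φ (thL 3)

omit [CharZero K] in
theorem gs_const : constantCoeff (gs K) = 1 := by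
  rw [← coeff_zero_eq_constantCoeff_apply, gs, coeff_mk]

omit [CharZero K] in
theorem RR_const : constantCoeff (RR K) = 1 := by
  simp [RR, gs_const]

omit [CharZero K] in
theorem LL_const (φ : ℤ_[3] →+* K) : constantCoeff (LL φ) = 1 := by
  have h0 : constantCoeff (PowerSeries.map φ (thL 3)) = 0 := by
    rw [← coeff_zero_eq_constantCoeff_apply, coeff_map, coeff_zero_eq_constantCoeff_apply,
      thL_const, map_zero]
  simp [LL, h0]

omit [CharZero K] in
theorem RR_LL (φ : ℤ_[3] →+* K) : RR K * LL φ = 1 := by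
  have h1 := congrArg (PowerSeries.map φ) (one_sub_pow 3 (Or.inr rfl))
  simp only [map_pow, map_mul, map_sub, map_add, map_one, PowerSeries.map_X,
    PowerSeries.map_C] at h1
  have h2 : φ ((3 : ℕ) : ℤ_[3]) = 3 := by
    rw [map_natCast]
    norm_num
  rw [h2] at h1
  have h3 : (1 - X) ^ 3 = (1 - X ^ 3) * LL φ := h1
  have h4 := gs_mul K
  calc RR K * LL φ = gs K ^ 3 * ((1 - X ^ 3) * LL φ) := by rw [RR]; ring
    _ = ((1 - X) * gs K) ^ 3 := by rw [← h3, mul_pow]; ring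
    _ = 1 := by rw [h4, one_pow]

/-- `R^(m - y) = R^m L^y`. -/
theorem ppow_RR (φ : ℤ_[3] →+* K) (m : ℕ) (y : K) :
    ppow (RR K) ((m : K) - y) = RR K ^ m * ppow (LL φ) y := by
  have h1 : ppow (RR K) (-y) * ppow (RR K) y = 1 := by
    rw [← ub_ppow_add RR_const, neg_add_cancel, ub_ppow_zero RR_const]
  have h2 : ppow (RR K) y * ppow (LL φ) y = 1 := by
    rw [← ub_ppow_mul RR_const (LL_const φ), RR_LL]
    have h3 : constantCoeff (1 : PowerSeries K) = 1 := map_one _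
    have h4 := ub_ppow_mul h3 h3 y
    rw [mul_one] at h4
    have h5 : ppow (1 : PowerSeries K) y ≠ 0 := by
      intro h6
      have h7 := ub_const_ppow h3 y
      rw [h6, map_zero] at h7
      exact zero_ne_one h7
    exact (mul_left_cancel₀ h5 (by rw [mul_one]; exact h4)).symm
  rw [sub_eq_add_neg, ub_ppow_add RR_const, ub_ppow_nat RR_const]
  congr 1
  calc ppow (RR K) (-y) = ppow (RR K) (-y) * (ppow (RR K) y * ppow (LL φ) y) := by
        rw [h2, mul_one]
    _ = ppow (LL φ) y := by rw [← mul_assoc, h1, one_mul]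

/-- The entries of the matrix of `U_3`. -/
theorem Mat3_eq (φ : ℤ_[3] →+* K) {a : ℕ} (ha : a ≤ 2) (y : K) {i j : ℕ}
    (hij : j + 1 ≤ 3 * (i + 1)) :
    Mat3 a ((a : K) + 3 * y) (i + 1) (j + 1) = 3 ^ (3 * (i + 1) - (j + 1)) *
      coeff (3 * (i + 1)) (wS 3 K ^ a * vS 3 K ^ (j + 1) *
        ((1 - X) ^ a * ppow (LL φ) y) * (1 - X ^ 3) ^ i) := by
  have h30 : (3 : K) ≠ 0 := by norm_num
  set t : PowerSeries K := C (3 : K)⁻¹ * (X * gs K) with ht
  have ht0 : constantCoeff t = 0 := by simp [ht]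
  have hs : HasSubst t := HasSubst.of_constantCoeff_zero' ht0
  have hQ0 : constantCoeff (Qser K) = 1 := by simp [Qser]
  have h3t : C (3 : K) * t = X * gs K := by
    rw [ht, ← mul_assoc, ← map_mul, mul_inv_cancel₀ h30, map_one, one_mul]
  have h1 := gs_mul K
  have hgs : 1 + X * gs K = gs K := by linear_combination -h1
  rw [Mat3, if_pos hij, lag 3 h30]
  congr 1
  -- the substitution
  have e1 : (1 + C (3 : K) * X : PowerSeries K).subst t = gs K := by
    rw [subst_add hs, subst_mul hs, ub_subst_one hs, ub_subst_C hs, subst_X hs, h3t, hgs]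
  have e2 : (1 + C (9 : K) * X : PowerSeries K).subst t = wS 3 K := by
    rw [subst_add hs, subst_mul hs, ub_subst_one hs, ub_subst_C hs, subst_X hs, wS, cw,
      if_neg (by decide)]
    have h9 : C (9 : K) = C (3 : K) * C (3 : K) := by
      rw [← map_mul]
      norm_num
    rw [h9, mul_assoc, h3t]
    push_cast
    ring
  have e3 : (Qser K).subst t = RR K := by
    have h4 : (Qser K).subst t = 1 + C (9 : K) * t + C (27 : K) * t ^ 2 := by
      rw [Qser, subst_add hs, subst_add hs, subst_mul hs, subst_mul hs, ub_subst_one hs,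
        ub_subst_C hs, ub_subst_C hs, subst_pow hs, subst_X hs]
    have h5 : C (3 : K) = 3 := map_ofNat C 3
    have h9' : C (9 : K) = 9 := map_ofNat C 9
    have h27' : C (27 : K) = 27 := map_ofNat C 27
    have h9 : C (9 : K) * t = C (3 : K) * (X * gs K) := by
      rw [h9', h5]
      rw [h5] at h3t
      linear_combination 3 * h3t
    have h27 : C (27 : K) * t ^ 2 = C (3 : K) * (X * gs K) ^ 2 := by
      rw [h27', h5]
      rw [h5] at h3t
      linear_combination (9 * t + 3 * (X * gs K)) * h3t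
    have h6 : RR K * ((1 - X) * gs K) = RR K := by rw [h1, mul_one]
    rw [h4, h9, h27, h5, RR]
    linear_combination (-(1 + X + X ^ 2) * gs K ^ 2 - (1 + 2 * X) * gs K - 1 :
      PowerSeries K) * h1
  rw [subst_mul hs, subst_mul hs, subst_pow hs, subst_pow hs, e1, e2, ppow_subst hQ0 ht0, e3]
  have h7 : (((i + 1 : ℕ) : K) + ((j + 1 : ℕ) : K) - 1 - (((a : K) + 3 * y) - a) / 3) =
      ((i + j + 1 : ℕ) : K) - y := by
    push_cast
    field_simp
    ring
  rw [h7, ppow_RR φ]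
  -- the powers
  have h8 : vS 3 K ^ (j + 1) = X ^ (j + 1) * ((1 - X ^ 3) ^ (j + 1) * gs K ^ (4 * (j + 1))) := by
    rw [vS, pow_mul, ← mul_pow, mul_assoc, mul_pow X]
  have h9 : wS 3 K ^ a * vS 3 K ^ (j + 1) * ((1 - X) ^ a * ppow (LL φ) y) * (1 - X ^ 3) ^ i =
      X ^ (j + 1) * (wS 3 K ^ a * ppow (LL φ) y * (1 - X ^ 3) ^ (i + j + 1) *
        (gs K ^ (4 * (j + 1)) * (1 - X) ^ a)) := by
    rw [h8]
    ring
  obtain ⟨N, hN⟩ := Nat.exists_eq_add_of_le hij
  rw [h9, hN, Nat.add_sub_cancel_left, add_comm (j + 1) N, coeff_X_pow_mul]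
  congr 1
  have h10 : gs K ^ (4 * (j + 1)) * (1 - X) ^ a =
      gs K ^ (2 - a + 3 * (i + j + 1) + 1) * (1 - X) ^ N := gs_pow_mul (by omega)
  rw [h10, RR, mul_pow, ← pow_mul]
  ring

/-- The matrix of `U_3` conjugated by `27^i`. -/
def M3 {K : Type*} [Field K] (a : ℕ) (x : K) (i j : ℕ) : K :=
  (27 ^ i)⁻¹ * Mat3 a x i j * 27 ^ j

theorem eval_ZZ (φ : ℤ_[3] →+* K) (a : ℕ) (x : K) (l j : ℕ) :
    (ZZ 3 a l j).eval₂ φ x = cmat 3 (fun j ↦ wS 3 K ^ a * vS 3 K ^ (j + 1) *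
      PowerSeries.map (Polynomial.eval₂RingHom φ x) (Th 3)) l j := by
  rw [← Polynomial.coe_eval₂RingHom, map_ZZ]

theorem eval_ZZ_zero (φ : ℤ_[3] →+* K) (a : ℕ) (x : K) {l j : ℕ} (h : 3 * (l + 1) < j + 1) :
    (ZZ 3 a l j).eval₂ φ x = 0 := by
  rw [eval_ZZ, cmat, coeff_mul]
  refine Finset.sum_eq_zero fun u hu => ?_
  rw [Finset.HasAntidiagonal.mem_antidiagonal] at hu
  rw [coeff_wv 3 a j K (by omega), if_neg (by omega), zero_mul]

/-- **The relation.** -/
theorem rel (φ : ℤ_[3] →+* K) {a : ℕ} (ha : a ≤ 2) (y : K) {Xi : PowerSeries K}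
    (hXi : IsExp 3 Xi)
    (h : (1 - X) ^ a * PowerSeries.map (Polynomial.eval₂RingHom φ y) (LX 3) =
      PowerSeries.map (Polynomial.eval₂RingHom φ ((a : K) + 3 * y)) (Th 3) * Xi) (i j : ℕ) :
    M3 a ((a : K) + 3 * y) (i + 1) (j + 1) =
      ∑ l ∈ Finset.range (i + 1), coeff (3 * (i - l)) (Xi * (1 - X ^ 3) ^ i) *
        (NN 3 a l j).eval₂ φ ((a : K) + 3 * y) := by
  have hN : ∀ l, (NN 3 a l j).eval₂ φ ((a : K) + 3 * y) =
      9 ^ (j + 1) * (ZZ 3 a l j).eval₂ φ ((a : K) + 3 * y) := by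
    intro l
    rw [NN, Polynomial.eval₂_mul, Polynomial.eval₂_C]
    congr 1
    rw [map_pow, map_natCast, cw, if_neg (by decide)]
    norm_num
  simp only [hN]
  by_cases hij : j + 1 ≤ 3 * (i + 1)
  · rw [M3, Mat3_eq φ ha y hij]
    rw [map_LX] at h
    have h1 : wS 3 K ^ a * vS 3 K ^ (j + 1) * ((1 - X) ^ a * ppow (LL φ) y) * (1 - X ^ 3) ^ i =
        (fun j ↦ wS 3 K ^ a * vS 3 K ^ (j + 1) *
          PowerSeries.map (Polynomial.eval₂RingHom φ ((a : K) + 3 * y)) (Th 3)) j *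
          (Xi * (1 - X ^ 3) ^ i) := by
      have h2 : (1 - X) ^ a * ppow (LL φ) y =
          PowerSeries.map (Polynomial.eval₂RingHom φ ((a : K) + 3 * y)) (Th 3) * Xi := h
      rw [h2]
      ring
    have h3 := cmat_mul (R := K) (p := 3) (by norm_num)
      (F := fun j ↦ wS 3 K ^ a * vS 3 K ^ (j + 1) *
          PowerSeries.map (Polynomial.eval₂RingHom φ ((a : K) + 3 * y)) (Th 3))
      (Xi := Xi * (1 - X ^ 3) ^ i) (fun j => const_wv 3 a j _)
      (hXi.mul (by norm_num) ((isExp_one_sub K).pow (by norm_num) i)) i j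
    have h4 : cmat 3 (fun j ↦ (fun j ↦ wS 3 K ^ a * vS 3 K ^ (j + 1) *
          PowerSeries.map (Polynomial.eval₂RingHom φ ((a : K) + 3 * y)) (Th 3)) j *
          (Xi * (1 - X ^ 3) ^ i)) i j = coeff (3 * (i + 1)) (wS 3 K ^ a * vS 3 K ^ (j + 1) *
            ((1 - X) ^ a * ppow (LL φ) y) * (1 - X ^ 3) ^ i) := by
      rw [h1]
      rfl
    rw [← h4, h3]
    have h5 : ((27 : K) ^ (i + 1))⁻¹ * 3 ^ (3 * (i + 1) - (j + 1)) * 27 ^ (j + 1) =
        9 ^ (j + 1) := by
      have h27 : ((27 : K) ^ (i + 1)) = 3 ^ (3 * (i + 1)) := by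
        rw [pow_mul]
        norm_num
      have h27' : ((27 : K) ^ (j + 1)) = 3 ^ (3 * (j + 1)) := by
        rw [pow_mul]
        norm_num
      have h9 : ((9 : K) ^ (j + 1)) = 3 ^ (2 * (j + 1)) := by
        rw [pow_mul]
        norm_num
      rw [h27, h27', h9, inv_mul_eq_div, div_mul_eq_mul_div, div_eq_iff (pow_ne_zero _ (by norm_num)),
        ← pow_add, ← pow_add]
      congr 1
      omega
    calc ((27 : K) ^ (i + 1))⁻¹ * (3 ^ (3 * (i + 1) - (j + 1)) *
          ∑ l ∈ Finset.range (i + 1), coeff (3 * (i - l)) (Xi * (1 - X ^ 3) ^ i) *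
            cmat 3 (fun j ↦ wS 3 K ^ a * vS 3 K ^ (j + 1) * PowerSeries.map
              (Polynomial.eval₂RingHom φ ((a : K) + 3 * y)) (Th 3)) l j) * 27 ^ (j + 1) =
        (((27 : K) ^ (i + 1))⁻¹ * 3 ^ (3 * (i + 1) - (j + 1)) * 27 ^ (j + 1)) *
          ∑ l ∈ Finset.range (i + 1), coeff (3 * (i - l)) (Xi * (1 - X ^ 3) ^ i) *
            cmat 3 (fun j ↦ wS 3 K ^ a * vS 3 K ^ (j + 1) * PowerSeries.map
              (Polynomial.eval₂RingHom φ ((a : K) + 3 * y)) (Th 3)) l j := by ring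
      _ = _ := by
        rw [h5, Finset.mul_sum]
        refine Finset.sum_congr rfl fun l _ => ?_
        rw [eval_ZZ]
        ring
  · rw [M3, Mat3, if_neg hij, mul_zero, zero_mul]
    symm
    refine Finset.sum_eq_zero fun l hl => ?_
    have := Finset.mem_range.1 hl
    rw [eval_ZZ_zero φ a _ (by omega), mul_zero, mul_zero]

end GH.Cen3
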