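import Pool.Agent.GH.UDet

/-! Minors of a matrix `M = W N`, `W` lower triangular. -/

namespace GH.Cen3

theorem det_row_lead {R : Type*} [CommRing R] {W N M : ℕ → ℕ → R} (hW : ∀ i, W i i = 1)
    (hM : ∀ i j, M i j = ∑ l ∈ Finset.range (i + 1), W i l * N l j) (n : ℕ) :
    (Matrix.of fun i j : Fin n => M i j).det = (Matrix.of fun i j : Fin n => N i j).det := by
  set T : Matrix (Fin n) (Fin n) R :=
    Matrix.of fun i l ↦ if (l : ℕ) ≤ i then W i l else 0 with hT
  have h1 : (Matrix.of fun i j : Fin n ↦ M (i : ℕ) (j : ℕ)) =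
      T * (Matrix.of fun i j : Fin n ↦ N (i : ℕ) (j : ℕ)) := by
    ext i j
    rw [Matrix.mul_apply, Matrix.of_apply, hM]
    have h2 : ∑ l : Fin n, T i l * (Matrix.of fun i j : Fin n ↦ N (i : ℕ) (j : ℕ)) l j =
        ∑ l ∈ Finset.range n, (if l ≤ (i : ℕ) then W i l else 0) * N l j := by
      rw [← Fin.sum_univ_eq_sum_range
        (fun l ↦ (if l ≤ (i : ℕ) then W i l else 0) * N l j)]
      rfl
    rw [h2]
    have h3 : Finset.range ((i : ℕ) + 1) ⊆ Finset.range n := by
      apply Finset.range_subset_range.mpr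
      exact i.2
    rw [← Finset.sum_subset h3]
    · apply Finset.sum_congr rfl
      intro l hl
      rw [if_pos (by have := Finset.mem_range.mp hl; omega)]
    · intro l _ hl
      rw [if_neg (by rw [Finset.mem_range] at hl; omega), zero_mul]
  rw [h1, Matrix.det_mul]
  have h4 : T.det = 1 := by
    rw [Matrix.det_of_isLowerTriangular (M := T)]
    · apply Finset.prod_eq_one
      intro i _
      simp only [hT, Matrix.of_apply, le_refl, if_true]
      exact hW i
    · intro i j hij
      simp only [hT, Matrix.of_apply]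
      rw [if_neg]
      exact not_le.mpr hij
  rw [h4, one_mul]

/-- expansion of a minor of `W N` -/
private theorem rowm_expand {R : Type*} [CommRing R] {n : ℕ} {W N M : ℕ → ℕ → R}
    (hM : ∀ i j, M i j = ∑ l ∈ Finset.range (i + 1), W i l * N l j) (a b : Fin n → ℕ) :
    (Matrix.of fun i j : Fin n => M (a i) (b j)).det =
      ∑ κ ∈ Fintype.piFinset (fun i : Fin n => Finset.range (a i + 1)),
        (∏ i, W (a i) (κ i)) * (Matrix.of fun i j : Fin n => N (κ i) (b j)).det := by
  have h1 : (Matrix.of fun i j : Fin n => M (a i) (b j)) =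
      (fun i : Fin n => ∑ l ∈ Finset.range (a i + 1), W (a i) l • fun j : Fin n => N l (b j)) := by
    funext i j
    rw [Matrix.of_apply, hM, Finset.sum_apply]
    rfl
  have h2 := (Matrix.detRowAlternating (n := Fin n) (R := R)).toMultilinearMap.map_sum_finset
    (fun (i : Fin n) (l : ℕ) => W (a i) l • fun j : Fin n => N l (b j))
    (fun i : Fin n => Finset.range (a i + 1))
  rw [h1]
  refine Eq.trans h2 (Finset.sum_congr rfl fun κ _ => ?_)
  exact (Matrix.detRowAlternating (n := Fin n) (R := R)).toMultilinearMap.map_smul_univ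
    (fun i => W (a i) (κ i)) (fun i j => N (κ i) (b j))

variable {K : Type*} [NormedField K] [IsUltrametricDist K]

omit [IsUltrametricDist K] in
private theorem rowm_term {n : ℕ} {W N : ℕ → ℕ → K} (a b : Fin n → ℕ) (κ : Fin n → ℕ)
    (P : ℝ → Prop) (h0 : P 0) (h : Function.Injective κ →
      P ((∏ i, ‖W (a i) (κ i)‖) * ‖(Matrix.of fun i j : Fin n => N (κ i) (b j)).det‖)) :
    P ‖(∏ i, W (a i) (κ i)) * (Matrix.of fun i j : Fin n => N (κ i) (b j)).det‖ := by
  by_cases hi : Function.Injective κ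
  · rw [norm_mul, norm_prod]
    exact h hi
  · have h1 : (Matrix.of fun i j : Fin n => N (κ i) (b j)).det = 0 := by
      rw [Function.Injective] at hi
      push Not at hi
      obtain ⟨i, j, hij, hne⟩ := hi
      refine Matrix.det_zero_of_row_eq hne ?_
      funext l
      simp only [Matrix.of_apply, hij]
    rw [h1, mul_zero, norm_zero]
    exact h0

theorem det_row_le {n : ℕ} {W N M : ℕ → ℕ → K}
    (hM : ∀ i j, M i j = ∑ l ∈ Finset.range (i + 1), W i l * N l j)
    (a b : Fin n → ℕ) {B : ℝ} (hB0 : 0 ≤ B)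
    (hB : ∀ κ : Fin n → ℕ, (∀ i, κ i ≤ a i) → Function.Injective κ →
      (∏ i, ‖W (a i) (κ i)‖) * ‖(Matrix.of fun i j : Fin n => N (κ i) (b j)).det‖ ≤ B) :
    ‖(Matrix.of fun i j : Fin n => M (a i) (b j)).det‖ ≤ B := by
  rw [rowm_expand hM]
  refine ud_sum_le _ _ hB0 fun κ hκ => ?_
  refine rowm_term a b κ (fun x => x ≤ B) hB0 fun hi => hB κ (fun i => ?_) hi
  have h1 := Finset.mem_range.1 (Fintype.mem_piFinset.1 hκ i)
  omega

theorem det_row_lt {n : ℕ} {W N M : ℕ → ℕ → K}
    (hM : ∀ i j, M i j = ∑ l ∈ Finset.range (i + 1), W i l * N l j)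
    (a b : Fin n → ℕ) {B : ℝ} (hB0 : 0 < B)
    (hB : ∀ κ : Fin n → ℕ, (∀ i, κ i ≤ a i) → Function.Injective κ →
      (∏ i, ‖W (a i) (κ i)‖) * ‖(Matrix.of fun i j : Fin n => N (κ i) (b j)).det‖ < B) :
    ‖(Matrix.of fun i j : Fin n => M (a i) (b j)).det‖ < B := by
  rw [rowm_expand hM]
  refine ud_sum_lt _ _ hB0 fun κ hκ => ?_
  refine rowm_term a b κ (fun x => x < B) hB0 fun hi => hB κ (fun i => ?_) hi
  have h1 := Finset.mem_range.1 (Fintype.mem_piFinset.1 hκ i)
  omega

end GH.Cen3
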