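import Pool.Agent.GH.MatU.Theta
import Pool.Agent.GH.D3.Base3

/-! Row C3-4: bounds for the series `Ξ`, `(1-s)^a L^y = Θ_(a+3y) Ξ`. -/

open PowerSeries

noncomputable section

namespace GH.Cen3

open GH.D3 GH.MatU

/-- The coefficients are bounded by `R^k`. -/
def BdR (R : ℝ) (F : PowerSeries C3) : Prop := ∀ k, ‖coeff k F‖ ≤ R ^ k

theorem xb_norm_iota (a : ℤ_[3]) : ‖iota3 a‖ = ‖a‖ := by
  change ‖algebraMap ℚ_[3] C3 (a : ℚ_[3])‖ = ‖a‖
  rw [norm_algebraMap']
  rfl

theorem xb_iota_le (a : ℤ_[3]) : ‖iota3 a‖ ≤ 1 := by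
  rw [xb_norm_iota]
  exact PadicInt.norm_le_one a

theorem xb_natCast_le (n : ℕ) : ‖(n : C3)‖ ≤ 1 := by
  have h : (n : C3) = iota3 (n : ℤ_[3]) := by rw [map_natCast]
  rw [h]
  exact xb_iota_le _

theorem xb_sub (x y : C3) : ‖x - y‖ ≤ max ‖x‖ ‖y‖ := by
  have h := IsUltrametricDist.norm_add_le_max x (-y)
  rwa [norm_neg, ← sub_eq_add_neg] at h

theorem BdR.mul {R : ℝ} (hR : 0 ≤ R) {F G : PowerSeries C3} (hF : BdR R F) (hG : BdR R G) :
    BdR R (F * G) := by
  intro k
  rw [coeff_mul]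
  refine IsUltrametricDist.norm_sum_le_of_forall_le_of_nonneg (by positivity) fun ij hij => ?_
  rw [Finset.HasAntidiagonal.mem_antidiagonal] at hij
  rw [norm_mul, ← hij, pow_add]
  exact mul_le_mul (hF _) (hG _) (norm_nonneg _) (by positivity)

theorem BdR.of_one {R : ℝ} (hR : 1 ≤ R) {F : PowerSeries C3} (hF : ∀ k, ‖coeff k F‖ ≤ 1) :
    BdR R F := fun k => (hF k).trans (one_le_pow₀ hR)

theorem bdR_one {R : ℝ} (hR : 1 ≤ R) : BdR R (1 : PowerSeries C3) := by
  refine BdR.of_one hR fun k => ?_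
  rw [coeff_one]
  split_ifs
  · simp
  · simp

theorem BdR.pow {R : ℝ} (hR : 1 ≤ R) {F : PowerSeries C3} (hF : BdR R F) (a : ℕ) :
    BdR R (F ^ a) := by
  induction a with
  | zero =>
    rw [pow_zero]
    exact bdR_one hR
  | succ a ih =>
    rw [pow_succ]
    exact BdR.mul (by linarith) ih hF

theorem bdR_one_sub {R : ℝ} (hR : 1 ≤ R) : BdR R (1 - X : PowerSeries C3) := by
  refine BdR.of_one hR fun k => ?_
  rw [map_sub, coeff_one, coeff_X]
  refine (xb_sub _ _).trans (max_le ?_ ?_)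
  · split_ifs
    · simp
    · simp
  · split_ifs
    · simp
    · simp

/-- Division by a series with constant term `1`. -/
theorem BdR.of_mul {R : ℝ} (hR : 0 ≤ R) {E T Xi : PowerSeries C3} (hE : BdR R E)
    (hT : BdR R T) (hc : constantCoeff T = 1) (h : E = T * Xi) : BdR R Xi := by
  intro k
  induction k using Nat.strong_induction_on with
  | _ k ih =>
    have h1 : coeff k Xi = coeff k E -
        ∑ ij ∈ (Finset.HasAntidiagonal.antidiagonal k).erase (0, k), coeff ij.1 T * coeff ij.2 Xi := by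
      rw [h, coeff_mul, ← Finset.add_sum_erase _ _
        (Finset.HasAntidiagonal.mem_antidiagonal.2 (show ((0, k) : ℕ × ℕ).1 + ((0, k) : ℕ × ℕ).2 = k from
          zero_add k))]
      simp only [coeff_zero_eq_constantCoeff_apply, hc, one_mul, add_sub_cancel_right]
    rw [h1]
    refine (xb_sub _ _).trans (max_le (hE k) ?_)
    refine IsUltrametricDist.norm_sum_le_of_forall_le_of_nonneg (by positivity) fun ij hij => ?_
    rw [Finset.mem_erase, Finset.HasAntidiagonal.mem_antidiagonal] at hij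
    have h2 : ij.2 < k := by
      rcases Nat.lt_or_ge ij.2 k with h3 | h3
      · exact h3
      · exfalso
        apply hij.1
        ext
        · simp only
          omega
        · simp only
          omega
    rw [norm_mul, ← hij.2, pow_add]
    exact mul_le_mul (hT _) (ih _ h2) (norm_nonneg _) (by positivity)

theorem xb_eval (P : Polynomial ℤ_[3]) {z : C3} (hz : ‖z‖ ≤ 1) :
    ‖Polynomial.eval₂RingHom iota3 z P‖ ≤ 1 := by
  rw [Polynomial.coe_eval₂RingHom, Polynomial.eval₂_eq_sum_range]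
  refine IsUltrametricDist.norm_sum_le_of_forall_le_of_nonneg zero_le_one fun i _ => ?_
  rw [norm_mul, norm_pow]
  exact mul_le_one₀ (xb_iota_le _) (by positivity) (pow_le_one₀ (norm_nonneg _) hz)

theorem bdR_map {R : ℝ} (hR : 1 ≤ R) (F : PowerSeries (Polynomial ℤ_[3])) {z : C3}
    (hz : ‖z‖ ≤ 1) : BdR R (PowerSeries.map (Polynomial.eval₂RingHom iota3 z) F) := by
  refine BdR.of_one hR fun k => ?_
  rw [coeff_map]
  exact xb_eval _ hz

theorem xb_uu (n : ℕ) : ‖iota3 (uu 3 n)‖ * 3 ^ n ≤ (Real.sqrt 3) ^ n := by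
  have hn0 : (n.factorial : ℤ_[3]) ≠ 0 := Nat.cast_ne_zero.mpr n.factorial_ne_zero
  have h1 : ‖uu 3 n‖ * ‖(n.factorial : ℤ_[3])‖ = ((3 : ℝ) ^ n)⁻¹ := by
    rw [← norm_mul, uu_mul, norm_pow]
    have h2 : ‖((3 : ℕ) : ℤ_[3])‖ = (3 : ℝ)⁻¹ := by
      have := PadicInt.norm_p (p := 3)
      simpa using this
    rw [h2, inv_pow]
  have h2 : ‖(n.factorial : ℤ_[3])‖ = ((3 : ℝ) ^ (padicValNat 3 n.factorial))⁻¹ := by
    rw [PadicInt.norm_eq_zpow_neg_valuation hn0]
    have h3 : (n.factorial : ℤ_[3]).valuation = padicValNat 3 n.factorial := by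
      have h4 := PadicInt.valuation_coe (p := 3) (n.factorial : ℤ_[3])
      rw [PadicInt.coe_natCast, Padic.valuation_natCast] at h4
      exact_mod_cast h4.symm
    rw [h3, zpow_neg, zpow_natCast]
    norm_num
  have h5 : 2 * padicValNat 3 n.factorial ≤ n := by
    have h6 := sub_one_mul_padicValNat_factorial (p := 3) n
    omega
  have h7 : ‖uu 3 n‖ * 3 ^ n = (3 : ℝ) ^ (padicValNat 3 n.factorial) := by
    rw [h2] at h1
    have h8 : (3 : ℝ) ^ (padicValNat 3 n.factorial) ≠ 0 := by positivity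
    have h9 : (3 : ℝ) ^ n ≠ 0 := by positivity
    field_simp at h1
    linarith
  rw [xb_norm_iota, h7]
  have h8 : (3 : ℝ) ^ (padicValNat 3 n.factorial) =
      (Real.sqrt 3) ^ (2 * padicValNat 3 n.factorial) := by
    rw [pow_mul, Real.sq_sqrt (by norm_num)]
  rw [h8]
  exact pow_le_pow_right₀ (Real.one_le_sqrt.2 (by norm_num)) h5

theorem xb_desc {y : C3} (hy : ‖y‖ ≤ 3) (n : ℕ) :
    ‖Polynomial.eval₂RingHom iota3 y (descPochhammer ℤ_[3] n)‖ ≤ 3 ^ n := by
  induction n with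
  | zero => simp
  | succ n ih =>
    rw [descPochhammer_succ_right, map_mul, norm_mul, pow_succ]
    refine mul_le_mul ih ?_ (norm_nonneg _) (by positivity)
    rw [map_sub, map_natCast, Polynomial.coe_eval₂RingHom, Polynomial.eval₂_X]
    refine (xb_sub _ _).trans (max_le hy ?_)
    exact (xb_natCast_le n).trans (by norm_num)

/-- The bound for `L^y`. -/
theorem bdR_L {y : C3} (hy : ‖y‖ ≤ 3) :
    BdR (Real.sqrt 3) (PowerSeries.map (Polynomial.eval₂RingHom iota3 y) (LX 3)) := by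
  intro k
  have h2 : PowerSeries.map (Polynomial.eval₂RingHom iota3 y)
      (PowerSeries.map Polynomial.C (thL 3)) = PowerSeries.map iota3 (thL 3) := by
    ext m
    rw [coeff_map, coeff_map, coeff_map, Polynomial.coe_eval₂RingHom, Polynomial.eval₂_C]
  have h3 : PowerSeries.HasSubst (PowerSeries.map iota3 (thL 3)) := by
    apply PowerSeries.HasSubst.of_constantCoeff_zero'
    rw [← coeff_zero_eq_constantCoeff_apply, coeff_map, coeff_zero_eq_constantCoeff_apply,
      thL_const, map_zero]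
  rw [LX, Lpow, map_subst' (hasSubst_C 3 (thL_const 3)), h2, coeff_subst' h3]
  have h4 : (Function.support fun d : ℕ ↦
      coeff d (PowerSeries.map (Polynomial.eval₂RingHom iota3 y) (PowerSeries.mk (cc 3))) •
        coeff k (PowerSeries.map iota3 (thL 3) ^ d)) ⊆ (Finset.range (k + 1) : Set ℕ) := by
    intro d hd
    rw [Function.mem_support] at hd
    rw [Finset.mem_coe, Finset.mem_range]
    by_contra h5
    apply hd
    have h6 : X ^ d ∣ PowerSeries.map iota3 (thL 3) ^ d := by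
      apply pow_dvd_pow_of_dvd
      rw [X_dvd_iff, ← coeff_zero_eq_constantCoeff_apply, coeff_map,
        coeff_zero_eq_constantCoeff_apply, thL_const, map_zero]
    rw [X_pow_dvd_iff.1 h6 k (by omega), smul_zero]
  rw [finsum_eq_sum_of_support_subset _ h4]
  refine IsUltrametricDist.norm_sum_le_of_forall_le_of_nonneg (by positivity) fun d hd => ?_
  rw [Finset.mem_range] at hd
  rw [smul_eq_mul, norm_mul, coeff_map, coeff_mk, cc, map_mul, norm_mul,
    Polynomial.coe_eval₂RingHom, Polynomial.eval₂_C, ← map_pow, coeff_map]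
  have h7 := xb_desc hy d
  rw [Polynomial.coe_eval₂RingHom] at h7
  have h8 := xb_uu d
  calc ‖iota3 (uu 3 d)‖ * ‖Polynomial.eval₂ iota3 y (descPochhammer ℤ_[3] d)‖ *
        ‖iota3 (coeff k (thL 3 ^ d))‖
      ≤ ‖iota3 (uu 3 d)‖ * 3 ^ d * 1 := by
        refine mul_le_mul (mul_le_mul_of_nonneg_left h7 (norm_nonneg _)) (xb_iota_le _)
          (norm_nonneg _) (by positivity)
    _ ≤ (Real.sqrt 3) ^ d := by rw [mul_one]; exact h8
    _ ≤ (Real.sqrt 3) ^ k :=
        pow_le_pow_right₀ (Real.one_le_sqrt.2 (by norm_num)) (by omega)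

theorem exists_xi (a : ℕ) (y : C3) : ∃ Xi : PowerSeries C3, IsExp 3 Xi ∧
    constantCoeff Xi = 1 ∧
    (1 - X) ^ a * PowerSeries.map (Polynomial.eval₂RingHom iota3 y) (LX 3) =
      PowerSeries.map (Polynomial.eval₂RingHom iota3 ((a : C3) + 3 * y)) (Th 3) * Xi ∧
    (‖y‖ ≤ 1 → ∀ k, ‖coeff k Xi‖ ≤ 1) ∧
    (‖y‖ ≤ 3 → ∀ k, ‖coeff k Xi‖ ≤ (Real.sqrt 3) ^ k) := by
  obtain ⟨Xi, h1, h2, h3⟩ := ratio_pt (p := 3) (Or.inr rfl) iota3 a y
  rw [show (((3 : ℕ) : C3)) = 3 by norm_num] at h3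
  have h4 : constantCoeff (PowerSeries.map (Polynomial.eval₂RingHom iota3 ((a : C3) + 3 * y))
      (Th 3)) = 1 := const_map _ (Th_const 3)
  have h5 : ‖y‖ ≤ 3 → ‖(a : C3) + 3 * y‖ ≤ 1 := by
    intro hy
    refine (IsUltrametricDist.norm_add_le_max _ _).trans (max_le (xb_natCast_le a) ?_)
    have h6 : ‖(3 : C3)‖ = (3 : ℝ)⁻¹ := by
      have h7 : (3 : C3) = iota3 ((3 : ℕ) : ℤ_[3]) := by
        rw [map_natCast]
        norm_num
      rw [h7, xb_norm_iota]
      have := PadicInt.norm_p (p := 3)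
      simpa using this
    rw [norm_mul, h6]
    linarith
  refine ⟨Xi, h1, h2, h3, ?_, ?_⟩
  · intro hy k
    have h6 : BdR 1 Xi := BdR.of_mul zero_le_one
      (BdR.mul zero_le_one ((bdR_one_sub le_rfl).pow le_rfl a) (bdR_map le_rfl (LX 3) hy))
      (bdR_map le_rfl (Th 3) (h5 (hy.trans (by norm_num)))) h4 h3
    have h7 := h6 k
    rwa [one_pow] at h7
  · intro hy
    have hR : 1 ≤ Real.sqrt 3 := Real.one_le_sqrt.2 (by norm_num)
    exact BdR.of_mul (by linarith)
      (BdR.mul (by linarith) ((bdR_one_sub hR).pow hR a) (bdR_L hy))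
      (bdR_map hR (Th 3) (h5 hy)) h4 h3

end GH.Cen3
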