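import Pool.Agent.GH.MatU.Root
import Pool.Agent.GH.Cen3.RelB
import Pool.Agent.GH.Cen3.XiB
import Pool.Agent.GH.Cen3.RowM
import Pool.Agent.GH.GhostMult3
import Pool.Agent.GH.NP

/-!
# The matrix of `U_3` as `W N`, estimates of the minors on the unit disc
-/

open PowerSeries Filter Topology

noncomputable section

namespace GH.Cen3

open GH.MatU GH.D3

theorem norm_iota3 (z : ℤ_[3]) : ‖iota3 z‖ = ‖z‖ := xb_norm_iota z

/-! ### Products of bounded series -/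

theorem coeff_mul_bd {R : ℝ} (hR : 1 ≤ R) {F G : PowerSeries C3} (hF : ∀ k, ‖coeff k F‖ ≤ R ^ k)
    (hG : ∀ k, ‖coeff k G‖ ≤ 1) (k : ℕ) : ‖coeff k (F * G)‖ ≤ R ^ k := by
  rw [coeff_mul]
  refine ud_sum_le _ _ (by positivity) fun u hu => ?_
  rw [Finset.HasAntidiagonal.mem_antidiagonal] at hu
  rw [norm_mul]
  calc ‖coeff u.1 F‖ * ‖coeff u.2 G‖ ≤ R ^ u.1 * 1 :=
        mul_le_mul (hF _) (hG _) (norm_nonneg _) (by positivity)
    _ ≤ R ^ k := by
        rw [mul_one]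
        exact pow_le_pow_right₀ hR (by omega)

theorem coeff_int_le (F : PowerSeries ℤ) (k : ℕ) :
    ‖coeff k (PowerSeries.map (Int.castRingHom C3) F)‖ ≤ 1 := by
  rw [coeff_map]
  exact IsUltrametricDist.norm_intCast_le_one C3 _

theorem coeff_one_sub_cube (i k : ℕ) : ‖coeff k ((1 - X ^ 3 : PowerSeries C3) ^ i)‖ ≤ 1 := by
  have h := coeff_int_le ((1 - X ^ 3 : PowerSeries ℤ) ^ i) k
  have h2 : PowerSeries.map (Int.castRingHom C3) ((1 - X ^ 3 : PowerSeries ℤ) ^ i) =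
      (1 - X ^ 3 : PowerSeries C3) ^ i := by
    rw [map_pow (PowerSeries.map (Int.castRingHom C3)), map_sub, map_one,
      map_pow (PowerSeries.map (Int.castRingHom C3)), PowerSeries.map_X]
  rwa [h2] at h

/-- The matrix of `U_3` is `W N`. -/
theorem exists_row {a : ℕ} (ha : a ≤ 2) {x : C3} (hx : ‖x‖ ≤ 1) : ∃ W : ℕ → ℕ → C3,
    (∀ i, W i i = 1) ∧ (∀ i l, ‖W i l‖ ≤ (Real.sqrt 3) ^ (3 * (i - l))) ∧
    (‖x - a‖ ≤ 1 / 3 → ∀ i l, ‖W i l‖ ≤ 1) ∧
    ∀ i j, M3 a x (i + 1) (j + 1) =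
      ∑ l ∈ Finset.range (i + 1), W i l * (NN 3 a l j).eval₂ iota3 x := by
  have h30 : (3 : C3) ≠ 0 := by norm_num
  obtain ⟨y, hy⟩ : ∃ y : C3, y = (x - a) / 3 := ⟨_, rfl⟩
  have hxy : x = (a : C3) + 3 * y := by
    rw [hy]
    field_simp
    ring
  have hny : ‖y‖ = 3 * ‖x - a‖ := by
    rw [hy, norm_div, gw_norm_three]
    ring
  have hxa : ‖x - a‖ ≤ 1 := by
    have := IsUltrametricDist.norm_add_le_max x (-(a : C3))
    rw [← sub_eq_add_neg, norm_neg] at this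
    exact this.trans (max_le hx (IsUltrametricDist.norm_natCast_le_one C3 a))
  obtain ⟨Xi, h1, h2, h3, h4, h5⟩ := exists_xi a y
  have hR : (1 : ℝ) ≤ Real.sqrt 3 := Real.one_le_sqrt.2 (by norm_num)
  refine ⟨fun i l => coeff (3 * (i - l)) (Xi * (1 - X ^ 3) ^ i), fun i => ?_, fun i l => ?_,
    fun h i l => ?_, fun i j => ?_⟩
  · show coeff (3 * (i - i)) (Xi * (1 - X ^ 3) ^ i) = 1
    rw [Nat.sub_self, mul_zero, coeff_zero_eq_constantCoeff_apply, map_mul, h2]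
    simp
  · exact coeff_mul_bd hR (h5 (by rw [hny]; linarith)) (coeff_one_sub_cube i) _
  · have := coeff_mul_bd le_rfl (fun k => by rw [one_pow]; exact h4 (by rw [hny]; linarith) k)
      (coeff_one_sub_cube i) (3 * (i - l))
    rwa [one_pow] at this
  · have := rel iota3 ha y h1 h3 i j
    rw [← hxy] at this
    exact this

/-! ### Norms of minors of `N` -/

theorem norm_eval_le {x : C3} (hx : ‖x‖ ≤ 1) (Q : Polynomial ℤ_[3]) : ‖Q.eval₂ iota3 x‖ ≤ 1 := by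
  rw [Polynomial.eval₂_eq_sum_range]
  refine ud_sum_le _ _ zero_le_one fun i _ ↦ ?_
  rw [norm_mul, norm_pow, norm_iota3]
  exact mul_le_one₀ (PadicInt.norm_le_one _) (by positivity) (pow_le_one₀ (norm_nonneg _) hx)

theorem eval_minor (a : ℕ) (x : C3) {n : ℕ} (κ b : Fin n → ℕ) :
    (Pot.minor (NN 3 a) κ b).eval₂ iota3 x =
      (Matrix.of fun i j : Fin n => (NN 3 a (κ i) (b j)).eval₂ iota3 x).det := by
  unfold Pot.minor
  rw [← Polynomial.coe_eval₂RingHom, RingHom.map_det]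
  rfl

theorem norm_minor_NN (a : ℕ) {x : C3} (hx : ‖x‖ ≤ 1) {n : ℕ} (κ b : Fin n → ℕ) :
    ‖(Matrix.of fun i j : Fin n => (NN 3 a (κ i) (b j)).eval₂ iota3 x).det‖ ≤
      (1 / 9 : ℝ) ^ (∑ i, (b i + 1)) := by
  rw [← eval_minor]
  obtain ⟨Q, hQ⟩ := minor_NN_dvd (p := 3) a n κ b
  rw [hQ, Polynomial.eval₂_mul, Polynomial.eval₂_C, norm_mul]
  have h9 : ‖iota3 (((3 * cw 3 : ℕ) : ℤ_[3]) ^ (∑ i, (b i + 1)))‖ =
      (1 / 9 : ℝ) ^ (∑ i, (b i + 1)) := by
    rw [map_pow, norm_pow, map_natCast]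
    congr 1
    rw [cw, if_neg (by decide)]
    have : ((3 * 3 : ℕ) : C3) = 3 * 3 := by push_cast; ring
    rw [this, norm_mul, gw_norm_three]
    norm_num
  rw [h9]
  exact mul_le_of_le_one_right (by positivity) (norm_eval_le hx Q)

theorem norm_NN (a : ℕ) {x : C3} (hx : ‖x‖ ≤ 1) (l j : ℕ) :
    ‖(NN 3 a l j).eval₂ iota3 x‖ ≤ (1 / 9 : ℝ) ^ (j + 1) := by
  have h := norm_minor_NN a hx (n := 1) (fun _ => l) (fun _ => j)
  simpa using h

/-! ### The determinants of the leading blocks -/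

theorem lead_M3 {a : ℕ} (ha : a ≤ 2) {x : C3} (hx : ‖x‖ ≤ 1) (n : ℕ) :
    (Matrix.of fun i j : Fin n => M3 a x (i + 1) (j + 1)).det =
      (Pot.lead (NN 3 a) n).eval₂ iota3 x := by
  obtain ⟨W, h1, -, -, h4⟩ := exists_row ha hx
  rw [Pot.lead, eval_minor]
  exact det_row_lead (W := W) (N := fun l j => (NN 3 a l j).eval₂ iota3 x)
    (M := fun i j => M3 a x (i + 1) (j + 1)) h1 h4 n

/-- `√3⁻¹`. -/
def qq : ℝ := (Real.sqrt 3)⁻¹

theorem qq_pos : 0 < qq := inv_pos.2 (Real.sqrt_pos.2 (by norm_num))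

theorem qq_sq : qq ^ 2 = 1 / 3 := by
  rw [qq, inv_pow, Real.sq_sqrt (by norm_num)]
  norm_num

theorem qq_lt_one : qq < 1 := by
  have h := qq_sq
  have h0 := qq_pos
  nlinarith

theorem sqrt_pow_mul (m r : ℕ) : (Real.sqrt 3) ^ m * qq ^ (m + r) = qq ^ r := by
  have h : Real.sqrt 3 ≠ 0 := (Real.sqrt_pos.2 (by norm_num)).ne'
  rw [pow_add, ← mul_assoc, ← mul_pow, qq, mul_inv_cancel₀ h, one_pow, one_mul]

theorem ninth_pow (m : ℕ) : (1 / 9 : ℝ) ^ m = qq ^ (4 * m) := by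
  rw [pow_mul]
  congr 1
  rw [show (4 : ℕ) = 2 * 2 by norm_num, pow_mul, qq_sq]
  norm_num

theorem third_pow (m : ℕ) : (1 / 3 : ℝ) ^ m = qq ^ (2 * m) := by
  rw [pow_mul, qq_sq]

/-- Estimate of the minors on the closed unit disc. -/
theorem norm_minor_M3 {a : ℕ} (ha : a ≤ 2) {x : C3} (hx : ‖x‖ ≤ 1) {n : ℕ} (b : Fin n → ℕ) :
    ‖(Matrix.of fun i j : Fin n => M3 a x (b i + 1) (b j + 1)).det‖ ≤
      qq ^ (∑ i, (b i + 1) + 3 * (n * (n + 1) / 2)) := by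
  obtain ⟨W, -, h2, -, h4⟩ := exists_row ha hx
  refine det_row_le (W := W) (N := fun l j => (NN 3 a l j).eval₂ iota3 x)
    (M := fun i j => M3 a x (i + 1) (j + 1)) h4 b b (by have := qq_pos; positivity) ?_
  intro κ hκ hinj
  obtain ⟨hs, -⟩ := sum_inj hinj
  have e1 : ∏ i, ‖W (b i) (κ i)‖ ≤ (Real.sqrt 3) ^ (∑ i, 3 * (b i - κ i)) := by
    rw [← Finset.prod_pow_eq_pow_sum]
    exact Finset.prod_le_prod (fun i _ => norm_nonneg _) fun i _ => h2 _ _
  have e2 := norm_minor_NN a hx κ b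
  rw [ninth_pow] at e2
  have e3 : ∑ i, 3 * (b i - κ i) + 3 * ∑ i, (κ i + 1) = 3 * ∑ i, (b i + 1) := by
    rw [← Finset.mul_sum, ← mul_add, ← Finset.sum_add_distrib]
    congr 1
    refine Finset.sum_congr rfl fun i _ => ?_
    have := hκ i
    omega
  have e4 : 4 * ∑ i, (b i + 1) = ∑ i, 3 * (b i - κ i) +
      (∑ i, (b i + 1) + 3 * ∑ i, (κ i + 1)) := by omega
  calc (∏ i, ‖W (b i) (κ i)‖) *
        ‖(Matrix.of fun i j : Fin n => (NN 3 a (κ i) (b j)).eval₂ iota3 x).det‖ ≤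
      (Real.sqrt 3) ^ (∑ i, 3 * (b i - κ i)) * qq ^ (4 * ∑ i, (b i + 1)) :=
        mul_le_mul e1 e2 (norm_nonneg _) (by positivity)
    _ = qq ^ (∑ i, (b i + 1) + 3 * ∑ i, (κ i + 1)) := by rw [e4, sqrt_pow_mul]
    _ ≤ _ := pow_le_pow_of_le_one qq_pos.le qq_lt_one.le (by omega)

/-- The sum of an increasing sequence. -/
theorem sum_mono {n N : ℕ} {b : Fin n → ℕ} (hb : StrictMono b) (h : ∃ i, N ≤ b i) :
    n * (n + 1) / 2 + (N + 1) ≤ ∑ i, (b i + 1) + n := by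
  obtain ⟨i, hi⟩ := h
  have hn : 0 < n := i.pos
  have h0 : ∀ i : Fin n, (i : ℕ) ≤ b i := by
    intro i
    obtain ⟨k, hk⟩ := i
    induction k with
    | zero => exact Nat.zero_le _
    | succ k ih =>
      have h6 := ih (by omega)
      have h7 : b ⟨k, by omega⟩ < b ⟨k + 1, hk⟩ := hb (by
        rw [Fin.mk_lt_mk]
        omega)
      show k + 1 ≤ b ⟨k + 1, hk⟩
      have h8 : k ≤ b ⟨k, by omega⟩ := h6
      omega
  have h1 : ∑ i, (b i + 1) = ∑ i : Fin n, ((i : ℕ) + 1) + ∑ i, (b i - i) := by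
    rw [← Finset.sum_add_distrib]
    refine Finset.sum_congr rfl fun i _ => ?_
    have := h0 i
    omega
  have h2 : N ≤ b ⟨n - 1, by omega⟩ := hi.trans (hb.monotone (by
    rw [Fin.le_def]
    show (i : ℕ) ≤ n - 1
    omega))
  have h3 : b ⟨n - 1, by omega⟩ - (n - 1) ≤ ∑ i, (b i - i) :=
    Finset.single_le_sum (f := fun i : Fin n => b i - i) (fun _ _ => Nat.zero_le _)
      (Finset.mem_univ (⟨n - 1, by omega⟩ : Fin n))
  rw [h1, sum_fin]
  omega

theorem fred_M3 (a : ℕ) (x : C3) (m : ℕ) : fred (Mat3 a x) m = fred (M3 a x) m := by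
  have h := fred_diag (Mat3 a x) (fun i => ((27 : C3) ^ i)⁻¹) (fun i => (27 : C3) ^ i)
    (fun i => inv_mul_cancel₀ (pow_ne_zero _ (by norm_num))) m
  rw [← h]
  rfl

theorem cpt_M3 {a : ℕ} (ha : a ≤ 2) {x : C3} (hx : ‖x‖ ≤ 1) :
    Cpt (fun i => qq ^ (3 * i)) (fun j => qq ^ (2 * (j + 1))) (sh (M3 a x)) where
  pos := fun _ => pow_pos qq_pos _
  lim := by
    rw [Nat.cofinite_eq_atTop]
    have h1 : Tendsto (fun m : ℕ => qq ^ m) atTop (𝓝 0) :=
      tendsto_pow_atTop_nhds_zero_of_lt_one qq_pos.le qq_lt_one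
    refine h1.comp ?_
    exact Filter.tendsto_atTop_mono (fun j => by omega : ∀ j : ℕ, j ≤ 2 * (j + 1)) tendsto_id
  le := fun i j => by
    obtain ⟨W, -, h2, -, h4⟩ := exists_row ha hx
    have hq := qq_pos
    have h5 : ‖sh (M3 a x) i j‖ ≤ (qq ^ (3 * i))⁻¹ * (qq ^ (3 * j) * qq ^ (2 * (j + 1))) := by
      show ‖M3 a x (i + 1) (j + 1)‖ ≤ _
      rw [h4]
      refine ud_sum_le _ _ (by positivity) fun l hl => ?_
      have hl' := Finset.mem_range.1 hl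
      by_cases hlj : 3 * (l + 1) < j + 1
      · have h6 : (NN 3 a l j).eval₂ iota3 x = 0 := by
          rw [NN, Polynomial.eval₂_mul, eval_ZZ_zero iota3 a x hlj, mul_zero]
        rw [h6, mul_zero, norm_zero]
        positivity
      · rw [norm_mul]
        have h7 := norm_NN a hx l j
        rw [ninth_pow] at h7
        have e1 : qq ^ (3 * i) * (Real.sqrt 3) ^ (3 * (i - l)) = qq ^ (3 * l) := by
          have h8 : 3 * i = 3 * (i - l) + 3 * l := by omega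
          rw [mul_comm]
          conv_lhs => rw [h8]
          have h9 : 3 * (i - l) + 3 * l - 3 * l = 3 * (i - l) := by omega
          have h10 : (3 * (i - l) + 3 * l) = 3 * i := h8.symm
          rw [← sqrt_pow_mul (3 * (i - l)) (3 * l), h10]
        rw [inv_mul_eq_div, le_div_iff₀ (by positivity)]
        calc ‖W i l‖ * ‖(NN 3 a l j).eval₂ iota3 x‖ * qq ^ (3 * i) ≤
            (Real.sqrt 3) ^ (3 * (i - l)) * qq ^ (4 * (j + 1)) * qq ^ (3 * i) := by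
              refine mul_le_mul_of_nonneg_right ?_ (by positivity)
              exact mul_le_mul (h2 i l) h7 (norm_nonneg _) (by positivity)
          _ = qq ^ (3 * l) * qq ^ (4 * (j + 1)) := by rw [← e1]; ring
          _ = qq ^ (3 * l + 4 * (j + 1)) := by rw [← pow_add]
          _ ≤ qq ^ (3 * j + 2 * (j + 1)) :=
              pow_le_pow_of_le_one qq_pos.le qq_lt_one.le (by omega)
          _ = _ := by rw [pow_add]
    calc qq ^ (3 * i) * ‖sh (M3 a x) i j‖ ≤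
        qq ^ (3 * i) * ((qq ^ (3 * i))⁻¹ * (qq ^ (3 * j) * qq ^ (2 * (j + 1)))) :=
          mul_le_mul_of_nonneg_left h5 (by positivity)
      _ = qq ^ (3 * j) * qq ^ (2 * (j + 1)) := by
          rw [← mul_assoc, mul_inv_cancel₀ (by positivity), one_mul]

end GH.Cen3
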